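import Pool.Agent.Lib.MP_0c183c_p9.Main7b

/-!
# Section 7b, the theorem
-/

set_option autoImplicit false

namespace Pool.Agent.MP_0c183c.P9

open Module MvPolynomial Pool.Agent.Lib.MP_0c183c_co_P9W Pool.Agent.Lib.MP_0c183c_co_P9S7
  Pool.Agent.Lib.MP_0c183c_co_P9F Pool.Agent.Lib.P9RankMat
open Pool.Agent.Lib.MP_0c183c_co_P9T (Tan mem_Tan Tan_comp Sp absb fam off allp Pr ents rowv)

variable {W : World} {ρ N : ℕ}

theorem nrow_smul {ι Ω : Type*} [CommRing Ω] (M : ι × Bool → ι × Bool → Ω) (b : ι) (c : Ω)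
    (w w' : Bool → Ω) (h : ∀ s, w s = c * w' s) : nrow M b w = c • nrow M b w' := by
  funext y
  simp only [nrow, Pi.smul_apply, smul_eq_mul, h]
  ring

/-- the tangent vector of the pair `a, x`, with a multiple of the line vector at `x` -/
theorem tan_of_rowv {T I I' : Finset ℚ} (hI : I ⊆ I') (T' : Finset ℚ) {a x : ℚ} (ka kb : Vx → W.Ω)
    (c : W.Ω) (w : Bool → W.Ω) (hw : ∀ s, w s = c * kb (x, s))
    (h : fam (off I') (rowv (W.P T) x a (fun q => ka (a, !q.1) * kb (x, !q.2))) ∈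
      Tan (ZMod 2) (fam (off I') (W.P T'))) :
    fam (off I) (rvec a (cov fun s => ka (a, s)) (nrow (W.P T) x w)) ∈
      Tan (ZMod 2) (fam (off I) (W.P T')) := by
  have h1 := Tan_restrict hI _ _ h
  have h2 : (rowv (W.P T) x a (fun q => ka (a, !q.1) * kb (x, !q.2))) =
      rvec a (cov fun s => ka (a, s)) (nrow (W.P T) x fun s => kb (x, s)) :=
    rowv_eq_rvec (W.P T) (W.symm T) a x (cov fun s => ka (a, s)) (fun s => kb (x, s))
  rw [h2] at h1
  rw [nrow_smul (W.P T) x c w (fun s => kb (x, s)) hw, rvec_smul]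
  exact Submodule.smul_mem _ c h1

/-- rank of the rows of the line vectors of the elements `B` of a gap -/
theorem finrank_nrow_le (H : TwoRank W ρ N) {T : Finset ℚ} {M : ℤ}
    (hT : ZI (-ρ - N) (M + N) ⊆ T) (κr : ℤ → Vx → W.Ω)
    (hκr : ∀ z : ℤ, -(ρ : ℤ) ≤ z → z + ρ ≤ M → κr z ∈ Rel W T (ZI z (z + ρ)) (KK ρ N M) ∧ κr z ≠ 0)
    (hM0 : 0 ≤ M) (A B : ℤ) (hA : -(ρ : ℤ) ≤ A) (hB : B + 2 * ρ ≤ M) (Y : Finset ℚ) (hY : Y ⊆ T)
    (hYB : ∀ y ∈ Y, ((B + ρ : ℤ) : ℚ) < y) :
    finrank W.Ω (Submodule.span W.Ω ((fun z : ℤ => res Y (nrow (W.P T) (z : ℚ)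
      (fun s => κr z ((z : ℚ), s)))) '' {z | A ≤ z ∧ z ≤ B})) ≤ ρ := by
  classical
  have hKT : KK ρ N M ⊆ T := by
    refine subset_trans ?_ hT
    intro q hq
    obtain ⟨w, hw, rfl⟩ := mem_KK.1 hq
    exact cast_mem_ZI.2 (by omega)
  have hZT : ∀ z : ℤ, -(ρ : ℤ) ≤ z → z + ρ ≤ M → ZI z (z + ρ) ⊆ T := fun z h1 h2 =>
    (ZI_mono (by omega) (by omega)).trans hT
  have hcard : ∀ z : ℤ, (ZI z (z + ρ)).card = ρ + 1 := fun z => by rw [card_ZI]; omega
  refine finrank_span_recursion _ A B ρ fun z hz1 hz2 => ?_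
  obtain ⟨hrz, hrz0⟩ := hκr z (by omega) (by omega)
  have haz := around_ZI (N := N) (M := M) (show -(ρ : ℤ) ≤ z by omega)
    (show z + ρ ≤ M by omega) (by omega)
  -- the components of the relation `κr z`
  have hcomp : ∀ z' : ℤ, z < z' → z' ≤ z + ρ → ∃ c : W.Ω, ∀ s, κr z ((z' : ℚ), s) =
      c * κr z' ((z' : ℚ), s) := by
    intro z' h1 h2
    obtain ⟨h3, h4⟩ := hκr z' (by omega) (by omega)
    obtain ⟨c, -, hc⟩ := comp_smul H (hZT z (by omega) (by omega)) (hZT z' (by omega) (by omega))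
      hKT (hcard z) (hcard z') haz (around_ZI (by omega) (by omega) (by omega)) hrz hrz0 h3 h4
      (q := (z' : ℚ)) (cast_mem_ZI.2 (by omega)) (cast_mem_ZI.2 (by omega))
    exact ⟨c, hc⟩
  have hsum : res Y (nrow (W.P T) (z : ℚ) (fun s => κr z ((z : ℚ), s))) +
      ∑ z' ∈ Finset.Icc (z + 1) (z + ρ), res Y (nrow (W.P T) (z' : ℚ)
        (fun s => κr z ((z' : ℚ), s))) = 0 := by
    funext y
    rw [Pi.add_apply, Finset.sum_apply]
    simp only [res_apply]
    by_cases hy : y.1 ∈ Y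
    · simp only [if_pos hy]
      have h1 := Rel_kills H (hZT z (by omega) (by omega)) hKT (by rw [hcard]; omega) haz hrz
        (y := y) (hY hy) (Or.inr fun x hx => by
          obtain ⟨w, hw, rfl⟩ := mem_ZI.1 hx
          refine lt_of_le_of_lt ?_ (hYB y.1 hy)
          have : w ≤ B + ρ := by omega
          exact_mod_cast this)
      rw [sum_VV_nrow, ZI, Finset.sum_image (fun _ _ _ _ h => Int.cast_injective h)] at h1
      have h2 : Finset.Icc z (z + (ρ : ℤ)) = insert z (Finset.Icc (z + 1) (z + ρ)) := by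
        ext w
        simp only [Finset.mem_Icc, Finset.mem_insert]
        omega
      rw [h2, Finset.sum_insert (by simp)] at h1
      exact h1
    · simp only [if_neg hy]
      simp
  have h3 : res Y (nrow (W.P T) (z : ℚ) (fun s => κr z ((z : ℚ), s))) =
      -∑ z' ∈ Finset.Icc (z + 1) (z + ρ), res Y (nrow (W.P T) (z' : ℚ)
        (fun s => κr z ((z' : ℚ), s))) := eq_neg_of_add_eq_zero_left hsum
  rw [h3]
  refine Submodule.neg_mem _ (Submodule.sum_mem _ fun z' hz' => ?_)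
  rw [Finset.mem_Icc] at hz'
  obtain ⟨c, hc⟩ := hcomp z' (by omega) hz'.2
  rw [nrow_smul (W.P T) (z' : ℚ) c _ (fun s => κr z' ((z' : ℚ), s)) hc, map_smul]
  exact Submodule.smul_mem _ _ (Submodule.subset_span ⟨z', ⟨by omega, hz'.2⟩, rfl⟩)

/-- **Section 7b.** -/
theorem az (H : TwoRank W ρ N) (hR : ∀ C, ∃ n v, C < W.R n v)
    (hU : ∃ c1 c2 : ℕ, ∀ I T : Finset ℚ, Far W T I →
      finrank W.Ω (Tan (ZMod 2) (fam (off I) (W.P T))) ≤ c1 * I.card + c2)
    (hK : HK W ρ N) (hKt : HKt W ρ N) :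
    ∃ (T0 Z0 J0 : Finset ℚ) (q0 : ℚ), Z0 ⊆ T0 ∧ J0 ⊆ T0 ∧ Z0.card = ρ + 1 ∧ q0 ∈ Z0 ∧
      Around N Z0 J0 ∧ ∀ T, T0 ⊆ T → ∀ κ ∈ Rel W T Z0 J0, offq W T Z0 κ q0 = 0 := by
  classical
  by_contra hcon
  have hneg : ∀ (T0 Z0 J0 : Finset ℚ) (q0 : ℚ), Z0 ⊆ T0 → J0 ⊆ T0 → Z0.card = ρ + 1 → q0 ∈ Z0 →
      Around N Z0 J0 → ∃ T, T0 ⊆ T ∧ ∃ κ ∈ Rel W T Z0 J0, offq W T Z0 κ q0 ≠ 0 := by
    intro T0 Z0 J0 q0 h1 h2 h3 h4 h5
    by_contra h6
    refine hcon ⟨T0, Z0, J0, q0, h1, h2, h3, h4, h5, fun T hT κ hκ => ?_⟩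
    by_contra h7
    exact h6 ⟨T, hT, κ, hκ, h7⟩
  obtain ⟨c1, c2, hU⟩ := hU
  -- sizes
  obtain ⟨n, hn⟩ : ∃ n : ℕ, n = 2 * c1 + 2 * ρ + 2 * c2 + 2 := ⟨_, rfl⟩
  obtain ⟨L, hL⟩ : ∃ L : ℤ, L = 2 * n + ρ + 2 := ⟨_, rfl⟩
  obtain ⟨M, hM⟩ : ∃ M : ℤ, M = n * L + 2 * ρ := ⟨_, rfl⟩
  have hL0 : 0 < L := by omega
  have hmono : ∀ i j : ℕ, i < j → (i : ℤ) * L + L ≤ j * L := by
    intro i j hij
    have : (i : ℤ) + 1 ≤ j := by omega
    nlinarith
  have hmono' : ∀ i j : ℕ, i ≤ j → (i : ℤ) * L ≤ j * L := by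
    intro i j hij
    have : (i : ℤ) ≤ j := by omega
    nlinarith
  have hnn : ∀ i : ℕ, 0 ≤ (i : ℤ) * L := fun i => by positivity
  obtain ⟨T, hTS, hTe⟩ := exists_far_erase W (ZI (-ρ - N) (M + N))
  have hST : ZI (-(ρ : ℤ) - N) (M + N) ⊆ T := hTS.1
  have hKS : KK ρ N M ⊆ ZI (-(ρ : ℤ) - N) (M + N) := by
    intro q hq
    obtain ⟨w, hw, rfl⟩ := mem_KK.1 hq
    have := hnn n
    exact cast_mem_ZI.2 (by omega)
  -- relations
  have hex : ∀ z : ℤ, ∃ κ : Vx → W.Ω, -(ρ : ℤ) ≤ z → z + ρ ≤ M →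
      κ ∈ Rel W T (ZI z (z + ρ)) (KK ρ N M) ∧ κ ≠ 0 ∧ ∀ x, κ x ∈ AT W T := by
    intro z
    by_cases h : -(ρ : ℤ) ≤ z ∧ z + ρ ≤ M
    · obtain ⟨κ, h1, h2, h3⟩ := exists_rel_block H hST z h.1 h.2
      exact ⟨κ, fun _ _ => ⟨h1, h2, h3⟩⟩
    · exact ⟨0, fun h1 h2 => absurd ⟨h1, h2⟩ h⟩
  choose κr hκr using hex
  have hoff : ∀ z : ℤ, 1 ≤ z → z + ρ ≤ M → offq W T (ZI z (z + ρ)) (κr z) (z : ℚ) ≠ 0 :=
    fun z h1 h2 => offq_block H hTS hneg z h1 h2 (κr z) (hκr z (by omega) h2).1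
      (hκr z (by omega) h2).2.1
  have hcard : ∀ z : ℤ, (ZI z (z + ρ)).card = ρ + 1 := fun z => by rw [card_ZI]; omega
  have hZS : ∀ z : ℤ, -(ρ : ℤ) ≤ z → z + ρ ≤ M → ZI z (z + ρ) ⊆ ZI (-(ρ : ℤ) - N) (M + N) :=
    fun z h1 h2 => ZI_mono (by omega) (by omega)
  have haz : ∀ z : ℤ, -(ρ : ℤ) ≤ z → z + ρ ≤ M → Around N (ZI z (z + ρ)) (KK ρ N M) :=
    fun z h1 h2 => around_ZI h1 h2 (by omega)
  have hne : ∀ z w : ℤ, -(ρ : ℤ) ≤ z → z + ρ ≤ M → z ≤ w → w ≤ z + ρ →
      κr z ((w : ℚ), false) ≠ 0 ∨ κr z ((w : ℚ), true) ≠ 0 := by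
    intro z w h1 h2 h3 h4
    exact Rel_comp_ne H ((hZS z h1 h2).trans hST) (hKS.trans hST) (hcard z) (haz z h1 h2)
      (hκr z h1 h2).1 (hκr z h1 h2).2.1 (cast_mem_ZI.2 ⟨h3, h4⟩)
  -- the complementary vectors
  have hexu : ∀ z : ℤ, ∃ (u : Bool → W.Ω) (d : W.Ω), -(ρ : ℤ) ≤ z → z + ρ ≤ M →
      d ≠ 0 ∧ (∀ s, d * u s ∈ AT W T) ∧
        κr z ((z : ℚ), false) * u true + κr z ((z : ℚ), true) * u false = 1 := by
    intro z
    by_cases h : -(ρ : ℤ) ≤ z ∧ z + ρ ≤ M
    · obtain ⟨u, d, h1⟩ := exists_u (AT W T) (fun s => κr z ((z : ℚ), s))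
        (hne z z h.1 h.2 le_rfl (by omega))
      exact ⟨u, d, fun _ _ => h1⟩
    · exact ⟨0, 0, fun h1 h2 => absurd ⟨h1, h2⟩ h⟩
  choose u d hu using hexu
  -- the base set
  let I : Finset ℚ := (Finset.range n).image fun i : ℕ => (((i : ℤ) * L : ℤ) : ℚ)
  have hI : ∀ p ∈ I, ∃ i : ℕ, i < n ∧ (((i : ℤ) * L : ℤ) : ℚ) = p := by
    intro p hp
    obtain ⟨i, hi, rfl⟩ := Finset.mem_image.1 hp
    exact ⟨i, Finset.mem_range.1 hi, rfl⟩
  have hIS : I ⊆ ZI (-(ρ : ℤ) - N) (M + N) := by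
    intro p hp
    obtain ⟨i, hi, rfl⟩ := hI p hp
    have h1 := hnn i
    have h2 := hmono i n hi
    exact cast_mem_ZI.2 (by omega)
  have hIcard : I.card = n := by
    rw [Finset.card_image_of_injective, Finset.card_range]
    intro i j hij
    have hij' : (((i : ℤ) * L : ℤ) : ℚ) = (((j : ℤ) * L : ℤ) : ℚ) := hij
    have h1 : (i : ℤ) * L = j * L := by exact_mod_cast hij'
    have h2 := mul_right_cancel₀ hL0.ne' h1
    exact_mod_cast h2
  let B : ℚ → Finset ℚ := fun p => (Finset.Icc (1 : ℤ) (2 * n)).image fun j : ℤ => p + (j : ℚ)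
  have hB : ∀ p b, b ∈ B p → ∃ j : ℤ, (1 ≤ j ∧ j ≤ 2 * n) ∧ p + (j : ℚ) = b := by
    intro p b hb
    obtain ⟨j, hj, rfl⟩ := Finset.mem_image.1 hb
    exact ⟨j, Finset.mem_Icc.1 hj, rfl⟩
  have hBcard : ∀ p, (B p).card = 2 * n := by
    intro p
    rw [Finset.card_image_of_injective _ (fun i j hij => by
      have h1 : (i : ℚ) = j := by simpa using hij
      exact_mod_cast h1), Int.card_Icc]
    omega
  have hfin := hU I T (hTS.anti hIS)
  rw [hIcard] at hfin
  have hcount := count_rvec I (Tan (ZMod 2) (fam (off I) (W.P T))) B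
    (fun q => cov fun s => κr (⌊q⌋ - ρ) (q, s)) (fun q => nrow (W.P T) q (u ⌊q⌋)) ρ ?_ ?_ ?_
  · rw [hIcard] at hcount
    have h1 : n - 1 = 2 * c1 + 2 * ρ + 2 * c2 + 1 := by omega
    rw [h1] at hcount
    nlinarith
  · -- the vectors are tangent
    intro p hp b hb
    obtain ⟨i, hi, rfl⟩ := hI p hp
    obtain ⟨j, hj, rfl⟩ := hB _ b hb
    have hi1 := hnn i
    have hi2 := hmono i n hi
    obtain ⟨A, hA⟩ : ∃ A : ℤ, A = (i : ℤ) * L := ⟨_, rfl⟩
    rw [← hA] at hi1 hi2 ⊢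
    obtain ⟨z, hz⟩ : ∃ z : ℤ, z = A + j := ⟨_, rfl⟩
    have hzc : ((A : ℤ) : ℚ) + (j : ℚ) = (z : ℚ) := by rw [hz]; push_cast; ring
    rw [hzc]
    simp only [Int.floor_intCast]
    have hz1 : 1 ≤ z := by omega
    have hzM : z + 2 * ρ ≤ M := by omega
    -- `b = z` is not in `I`, and `I` is outside of the blocks right of `A`
    have hgap : ∀ y ∈ I, y ≤ (A : ℚ) ∨ ((A + L : ℤ) : ℚ) ≤ y := by
      intro y hy
      obtain ⟨k, -, rfl⟩ := hI y hy
      rcases Nat.lt_or_ge i k with h | h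
      · right
        have := hmono i k h
        rw [← hA] at this
        exact_mod_cast this
      · left
        have := hmono' k i h
        rw [← hA] at this
        exact_mod_cast this
    have hbI : (z : ℚ) ∉ I := by
      intro h
      rcases hgap _ h with h1 | h1
      · have : z ≤ A := by exact_mod_cast h1
        omega
      · have : A + L ≤ z := by exact_mod_cast h1
        omega
    have hzS : (z : ℚ) ∈ ZI (-(ρ : ℤ) - N) (M + N) := cast_mem_ZI.2 (by omega)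
    have hzT : (z : ℚ) ∈ T := hST hzS
    have hAI : (A : ℚ) ∈ I := by
      rw [hA]
      exact hp
    have hTez := hTe _ hzS
    have hFI : Far W T I := hTS.anti hIS
    have hFI' : Far W (T.erase (z : ℚ)) I := hTez.anti fun y hy => by
      rw [Finset.mem_erase]
      exact ⟨fun h => hbI (h ▸ hy), hIS hy⟩
    have hra := hκr (A - ρ) (by omega) (by omega)
    have hrz := hκr z (by omega) (by omega)
    have hXl : ZI (A - ρ) (A - ρ + ρ) = ZI (A - ρ) A := by rw [sub_add_cancel]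
    rw [hXl] at hra
    have hXlS : ZI (A - ρ) A ⊆ ZI (-(ρ : ℤ) - N) (M + N) := ZI_mono (by omega) (by omega)
    have hXlc : (ZI (A - ρ) A).card = ρ + 1 := by rw [card_ZI]; omega
    have hXla : Around N (ZI (A - ρ) A) (KK ρ N M) := around_ZI (by omega) (by omega) (by omega)
    obtain ⟨hu1, hu2, hu3⟩ := hu z (by omega) (by omega)
    -- the neighbour statement
    have hadj : ∀ z' : ℤ, A < z' → z' ≤ A + 2 * n + ρ →
        ∀ y ∈ I ∪ KK ρ N M ∪ ZI (A - ρ) A ∪ ZI z' (z' + ρ),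
          ¬ ((A : ℚ) < y ∧ y < (z' : ℚ)) := by
      rintro z' h1 h2 y hy ⟨h3, h4⟩
      simp only [Finset.mem_union] at hy
      rcases hy with ((hy | hy) | hy) | hy
      · rcases hgap y hy with h5 | h5
        · exact absurd h3 (not_lt.2 h5)
        · have h6 : ((A + L : ℤ) : ℚ) < z' := h5.trans_lt h4
          have : A + L < z' := by exact_mod_cast h6
          omega
      · obtain ⟨w, hw, rfl⟩ := mem_KK.1 hy
        have h5 : A < w := by exact_mod_cast h3
        have h6 : w < z' := by exact_mod_cast h4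
        omega
      · obtain ⟨w, hw, rfl⟩ := mem_ZI.1 hy
        have h5 : A < w := by exact_mod_cast h3
        omega
      · obtain ⟨w, hw, rfl⟩ := mem_ZI.1 hy
        have h6 : w < z' := by exact_mod_cast h4
        omega
    have hSS : ∀ z' : ℤ, A < z' → z' + ρ ≤ M →
        I ∪ KK ρ N M ∪ ZI (A - ρ) A ∪ ZI z' (z' + ρ) ⊆ ZI (-(ρ : ℤ) - N) (M + N) := by
      intro z' h1 h2
      exact Finset.union_subset (Finset.union_subset (Finset.union_subset hIS hKS) hXlS)
        (hZS z' (by omega) h2)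
    have hIe : ∀ z' : ℤ, A < z' → z' ≤ A + 2 * n + ρ →
        I ⊆ (I ∪ KK ρ N M ∪ ZI (A - ρ) A ∪ ZI z' (z' + ρ)).erase (z' : ℚ) := by
      intro z' h1 h2 y hy
      rw [Finset.mem_erase]
      refine ⟨?_, Finset.mem_union_left _ (Finset.mem_union_left _ (Finset.mem_union_left _ hy))⟩
      rintro rfl
      rcases hgap _ hy with h3 | h3
      · have : z' ≤ A := by exact_mod_cast h3
        omega
      · have : A + L ≤ z' := by exact_mod_cast h3
        omega
    have hAl : (A : ℚ) ∈ ZI (A - ρ) A := cast_mem_ZI.2 (by omega)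
    have hAle : ∀ x ∈ ZI (A - ρ) A, x ≤ (A : ℚ) := by
      intro x hx
      obtain ⟨w, hw, rfl⟩ := mem_ZI.1 hx
      have : w ≤ A := by omega
      exact_mod_cast this
    have hzle : ∀ z' : ℤ, ∀ x ∈ ZI z' (z' + ρ), (z' : ℚ) ≤ x := by
      intro z' x hx
      obtain ⟨w, hw, rfl⟩ := mem_ZI.1 hx
      have : z' ≤ w := by omega
      exact_mod_cast this
    refine step7b T I (ZI z (z + ρ)) (A : ℚ) (z : ℚ) hzT (cast_mem_ZI.2 (by omega))
      ((hZS z (by omega) (by omega)).trans hST) hFI hFI' (cov fun s => κr (A - ρ) ((A : ℚ), s))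
      (fun s => hra.2.2 _) (κr z) ?_ (hoff z hz1 (by omega)) (u z) (d z) hu1 hu2 hu3 ?_ ?_
    · intro y hy
      refine Rel_kills H ((hZS z (by omega) (by omega)).trans hST) (hKS.trans hST)
        (by rw [hcard]; omega) (haz z (by omega) (by omega)) hrz.1 (hST (hIS hy)) ?_
      rcases hgap _ hy with h1 | h1
      · left
        intro x hx
        obtain ⟨w, hw, rfl⟩ := mem_ZI.1 hx
        refine lt_of_le_of_lt h1 ?_
        have : A < w := by omega
        exact_mod_cast this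
      · right
        intro x hx
        obtain ⟨w, hw, rfl⟩ := mem_ZI.1 hx
        refine lt_of_lt_of_le ?_ h1
        have : w < A + L := by omega
        exact_mod_cast this
    · -- (i) in the world `T - b`
      intro x hx
      rw [Finset.mem_erase] at hx
      obtain ⟨hxz, hx⟩ := hx
      obtain ⟨z', hz', rfl⟩ := mem_ZI.1 hx
      have hzz' : z < z' := by
        rcases lt_or_eq_of_le hz'.1 with h | h
        · exact h
        · exact absurd (by rw [h]) hxz
      have hrz' := hκr z' (by omega) (by omega)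
      obtain ⟨c, -, hc⟩ := comp_smul H ((hZS z (by omega) (by omega)).trans hST)
        ((hZS z' (by omega) (by omega)).trans hST) (hKS.trans hST) (hcard z) (hcard z')
        (haz z (by omega) (by omega)) (haz z' (by omega) (by omega)) hrz.1 hrz.2.1 hrz'.1
        hrz'.2.1 hx (cast_mem_ZI.2 (by omega))
      -- everything is inside `T - b`
      have hsub : ∀ {Y : Finset ℚ}, Y ⊆ ZI (-(ρ : ℤ) - N) (M + N) → (z : ℚ) ∉ Y →
          Y ⊆ (ZI (-(ρ : ℤ) - N) (M + N)).erase (z : ℚ) := by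
        intro Y hY hYz y hy
        rw [Finset.mem_erase]
        exact ⟨fun h => hYz (h ▸ hy), hY hy⟩
      have hse : (ZI (-(ρ : ℤ) - N) (M + N)).erase (z : ℚ) ⊆ T.erase (z : ℚ) := hTez.1
      have hKz : (z : ℚ) ∉ KK ρ N M := by
        intro h
        obtain ⟨w, hw, hwz⟩ := mem_KK.1 h
        have : w = z := by exact_mod_cast hwz
        omega
      have hlz : (z : ℚ) ∉ ZI (A - ρ) A := by
        intro h
        have := cast_mem_ZI.1 h
        omega
      have hz'z : (z : ℚ) ∉ ZI z' (z' + ρ) := by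
        intro h
        have := cast_mem_ZI.1 h
        omega
      have hSz : (z : ℚ) ∉ I ∪ KK ρ N M ∪ ZI (A - ρ) A ∪ ZI z' (z' + ρ) := by
        simp only [Finset.mem_union]
        rintro (((h | h) | h) | h)
        · exact hbI h
        · exact hKz h
        · exact hlz h
        · exact hz'z h
      refine tan_of_rowv (hIe z' (by omega) (by omega)) (T.erase (z : ℚ)) (κr (A - ρ)) (κr z') c
        (fun s => κr z ((z' : ℚ), s)) hc ?_
      refine hK _ (T.erase (z : ℚ)) (ZI (A - ρ) A) (ZI z' (z' + ρ)) (KK ρ N M) (A : ℚ) (z' : ℚ)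
        (κr (A - ρ)) (κr z') (hTez.anti (hsub (hSS z' (by omega) (by omega)) hSz))
        (Finset.mem_union_left _ (Finset.mem_union_left _ (Finset.mem_union_left _ hAI)))
        (Finset.mem_union_right _ (cast_mem_ZI.2 (by omega))) ?_
        (hadj z' (by omega) (by omega))
        (Finset.subset_union_right.trans Finset.subset_union_left) Finset.subset_union_right
        (Finset.subset_union_right.trans (Finset.subset_union_left.trans
          Finset.subset_union_left)) hXlc (hcard z') hXla (haz z' (by omega) (by omega)) hAl hAle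
        (cast_mem_ZI.2 (by omega)) (hzle z') ?_ hra.2.1 ?_ hrz'.2.1
      · have : A < z' := by omega
        exact_mod_cast this
      · refine Rel_erase H hzT ((hsub hXlS hlz).trans hse) ((hsub hKS hKz).trans hse)
          (by rw [hXlc]; omega) hXla (Or.inr fun x hx => ?_) hra.1
        refine lt_of_le_of_lt (hAle x hx) ?_
        have : A < z := by omega
        exact_mod_cast this
      · refine Rel_erase H hzT ((hsub (hZS z' (by omega) (by omega)) hz'z).trans hse)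
          ((hsub hKS hKz).trans hse) (by rw [hcard]; omega) (haz z' (by omega) (by omega))
          (Or.inl fun x hx => ?_) hrz'.1
        refine lt_of_lt_of_le ?_ (hzle z' x hx)
        exact_mod_cast hzz'
    · -- (it)
      refine tan_of_rowv (hIe z (by omega) (by omega)) (T.erase (z : ℚ)) (κr (A - ρ)) (κr z) 1
        (fun s => κr z ((z : ℚ), s)) (fun s => (one_mul _).symm) ?_
      refine hKt _ T (ZI (A - ρ) A) (ZI z (z + ρ)) (KK ρ N M) (A : ℚ) (z : ℚ)
        (κr (A - ρ)) (κr z) (hTS.anti (hSS z (by omega) (by omega)))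
        (hTez.anti (Finset.erase_subset_erase _ (hSS z (by omega) (by omega))))
        (Finset.mem_union_left _ (Finset.mem_union_left _ (Finset.mem_union_left _ hAI)))
        (Finset.mem_union_right _ (cast_mem_ZI.2 (by omega))) ?_
        (hadj z (by omega) (by omega))
        (Finset.subset_union_right.trans Finset.subset_union_left) Finset.subset_union_right
        (Finset.subset_union_right.trans (Finset.subset_union_left.trans
          Finset.subset_union_left)) hXlc (hcard z) hXla (haz z (by omega) (by omega)) hAl hAle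
        (cast_mem_ZI.2 (by omega)) (hzle z) hra.1 hra.2.1 hrz.1 hrz.2.1
      have : A < z := by omega
      exact_mod_cast this
  · -- the covectors are nonzero
    intro p hp h0
    obtain ⟨i, hi, rfl⟩ := hI p hp
    have hi1 := hnn i
    have hi2 := hmono i n hi
    obtain ⟨A, hA⟩ : ∃ A : ℤ, A = (i : ℤ) * L := ⟨_, rfl⟩
    rw [← hA] at hi1 hi2 h0
    simp only [Int.floor_intCast] at h0
    rcases hne (A - ρ) A (by omega) (by omega) (by omega) (by omega) with h1 | h1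
    · exact h1 (congrFun h0 true)
    · exact h1 (congrFun h0 false)
  · -- the ranks
    intro p hp
    obtain ⟨i, hi, rfl⟩ := hI p hp
    have hi1 := hnn i
    have hi2 := hmono i n hi
    obtain ⟨A, hA⟩ : ∃ A : ℤ, A = (i : ℤ) * L := ⟨_, rfl⟩
    rw [← hA] at hi1 hi2 ⊢
    have hBz : ∀ b ∈ B (A : ℚ), ∃ z : ℤ, (A + 1 ≤ z ∧ z ≤ A + 2 * n) ∧ (z : ℚ) = b := by
      intro b hb
      obtain ⟨j, hj, rfl⟩ := hB _ b hb
      exact ⟨A + j, by omega, by push_cast; ring⟩
    have hBT : B (A : ℚ) ⊆ T := by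
      intro b hb
      obtain ⟨z, hz, rfl⟩ := hBz b hb
      exact hST (cast_mem_ZI.2 (by omega))
    have hYT : rt I (A : ℚ) ⊆ T := fun y hy => hST (hIS (mem_rt.1 hy).1)
    have hYge : ∀ y ∈ rt I (A : ℚ), ((A + L : ℤ) : ℚ) ≤ y := by
      intro y hy
      obtain ⟨hyI, hAy⟩ := mem_rt.1 hy
      obtain ⟨k, -, rfl⟩ := hI y hyI
      have h1 : A < (k : ℤ) * L := by exact_mod_cast hAy
      have h2 : i < k := by
        by_contra h3
        have := hmono' k i (by omega)
        omega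
      have h3 := hmono i k h2
      rw [← hA] at h3
      exact_mod_cast h3
    refine le_finrank_mrow (W.P T) (B (A : ℚ)) (rt I (A : ℚ))
      (fun q s => κr ⌊q⌋ (q, s)) (fun q => u ⌊q⌋) ?_ _ ρ ?_ ?_
    · intro b hb
      obtain ⟨z, hz, rfl⟩ := hBz b hb
      simp only [Int.floor_intCast]
      have h1 := (hu z (by omega) (by omega)).2.2
      have := charTwo W
      rw [CharTwo.sub_eq_add, h1]
      exact one_ne_zero
    · refine le_finrank_rows W hR hBT hYT ?_ ?_
      · intro x hx y hy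
        obtain ⟨z, hz, rfl⟩ := hBz x hx
        refine lt_of_lt_of_le ?_ (hYge y hy)
        have : z < A + L := by omega
        exact_mod_cast this
      · rw [hBcard]
        have : (rt I (A : ℚ)).card ≤ I.card := Finset.card_filter_le _ _
        omega
    · have h1 := finrank_nrow_le H hST κr (fun z h1 h2 => ⟨(hκr z h1 h2).1, (hκr z h1 h2).2.1⟩)
        (by omega) (A + 1) (A + 2 * n) (by omega) (by omega) (rt I (A : ℚ)) hYT (fun y hy => by
          refine lt_of_lt_of_le ?_ (hYge y hy)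
          have : A + 2 * (n : ℤ) + ρ < A + L := by omega
          exact_mod_cast this)
      have h2 : (fun b => res (rt I (A : ℚ)) (nrow (W.P T) b (fun s => κr ⌊b⌋ (b, s)))) ''
          (B (A : ℚ) : Set ℚ) = (fun z : ℤ => res (rt I (A : ℚ)) (nrow (W.P T) (z : ℚ)
          (fun s => κr z ((z : ℚ), s)))) '' {z | A + 1 ≤ z ∧ z ≤ A + 2 * n} := ?_
      · rw [h2]
        exact h1
      ext v
      constructor
      · rintro ⟨b, hb, rfl⟩
        obtain ⟨z, hz, rfl⟩ := hBz b (Finset.mem_coe.1 hb)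
        refine ⟨z, hz, ?_⟩
        simp only [Int.floor_intCast]
      · rintro ⟨z, hz, rfl⟩
        refine ⟨(z : ℚ), ?_, ?_⟩
        · refine Finset.mem_coe.2 (Finset.mem_image.2 ⟨z - A, Finset.mem_Icc.2 ?_, ?_⟩)
          · simp only [Set.mem_ofPred_eq] at hz
            omega
          · push_cast
            ring
        · simp only [Int.floor_intCast]

end Pool.Agent.MP_0c183c.P9
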