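import Mathlib

/-!
# Concave rank functions (numeric part of sections 4 and 5 of p9_C_helper29.md)
-/

set_option autoImplicit false

namespace Pool.Agent.MP_0c183c.P9

/-- A concave function with steps at most `2`, zero at `0`. -/
structure Conc (g : ℕ → ℕ) : Prop where
  zero : g 0 = 0
  mono : ∀ n, g n ≤ g (n + 1)
  step : ∀ n, g (n + 1) ≤ g n + 2
  conc : ∀ n, g (n + 2) + g n ≤ 2 * g (n + 1)

namespace Conc

variable {g : ℕ → ℕ}

theorem monotone (h : Conc g) : Monotone g := monotone_nat_of_le_succ h.mono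

/-- increments are nonincreasing -/
theorem incr (h : Conc g) {m n : ℕ} (hmn : m ≤ n) : g (n + 1) + g m ≤ g n + g (m + 1) := by
  induction n, hmn using Nat.le_induction with
  | base => omega
  | succ n _ ih =>
    have h1 : g (n + 1 + 1) + g n ≤ 2 * g (n + 1) := h.conc n
    omega

theorem le_two_mul (h : Conc g) (n : ℕ) : g n ≤ 2 * n := by
  induction n with
  | zero => simp [h.zero]
  | succ n ih => have := h.step n; omega

/-- an increment `2` at `n` forces all the earlier ones -/
theorem eq_two_mul (h : Conc g) {n : ℕ} (hn : g n + 2 ≤ g (n + 1)) :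
    ∀ m, m ≤ n + 1 → g m = 2 * m := by
  intro m
  induction m with
  | zero => intro _; simp [h.zero]
  | succ m ih =>
    intro hm
    have h1 := ih (by omega)
    have h2 := h.incr (show m ≤ n by omega)
    have h3 := h.step m
    omega

/-- an increment `0` at `n` forces all the later ones -/
theorem eq_of_le (h : Conc g) {n : ℕ} (hn : g (n + 1) ≤ g n) {m : ℕ} (hm : n ≤ m) :
    g m = g n := by
  induction m, hm using Nat.le_induction with
  | base => rfl
  | succ m hm ih =>
    have h1 := h.incr hm
    have h2 := h.mono m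
    omega

/-- the slope at infinity -/
theorem exists_slope (h : Conc g) :
    ∃ e n₀ C : ℕ, e ≤ 2 ∧ (∀ n, n₀ ≤ n → g n = e * n + C) ∧ (∀ n, e * n ≤ g n) ∧
      ∀ n, n₀ ≤ n → g (n + 1) = g n + e := by
  -- the minimal increment
  have hex : ∃ e, ∃ n, g (n + 1) = g n + e := ⟨g (0 + 1) - g 0, 0, by have := h.mono 0; omega⟩
  classical
  obtain ⟨n₀, hn₀⟩ := Nat.find_spec hex
  set e := Nat.find hex with he
  have hmin : ∀ n, g n + e ≤ g (n + 1) := by
    intro n
    have h1 : e ≤ g (n + 1) - g n := Nat.find_min' hex ⟨n, by have := h.mono n; omega⟩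
    have h2 := h.mono n
    omega
  have heq : ∀ n, n₀ ≤ n → g (n + 1) = g n + e := by
    intro n hn
    have h1 := h.incr hn
    have h2 := hmin n
    omega
  have hlow : ∀ n, e * n ≤ g n := by
    intro n
    induction n with
    | zero => omega
    | succ n ih =>
      have := hmin n
      rw [Nat.mul_succ]
      omega
  have h2 : e ≤ 2 := by
    have := h.step n₀
    omega
  refine ⟨e, n₀, g n₀ - e * n₀, h2, ?_, hlow, heq⟩
  intro n hn
  induction n, hn using Nat.le_induction with
  | base => have := hlow n₀; omega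
  | succ n hn ih =>
    rw [heq n hn, ih, Nat.mul_succ]
    omega

/-- unbounded concave functions grow at least linearly -/
theorem le_of_unbounded (h : Conc g) (hu : ∀ B, ∃ n, B < g n) (n : ℕ) : n ≤ g n := by
  obtain ⟨e, n₀, C, -, h1, h2, -⟩ := h.exists_slope
  rcases Nat.eq_zero_or_pos e with he | he
  · exfalso
    subst he
    obtain ⟨m, hm⟩ := hu C
    have h3 : g m ≤ g (max m n₀) := h.monotone (le_max_left _ _)
    have h4 := h1 (max m n₀) (le_max_right _ _)
    omega
  · have := h2 n
    nlinarith

end Conc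

/-- A homogeneous rank function: `R N v` is the rank of `v` left against `N` right elements. -/
structure RankFun (R : ℕ → ℕ → ℕ) : Prop where
  left : ∀ v, Conc fun N => R N v
  right : ∀ N, Conc fun v => R N v
  supermod : ∀ N v, R (N + 1) v + R N (v + 1) ≤ R (N + 1) (v + 1) + R N v

namespace RankFun

variable {R : ℕ → ℕ → ℕ}

theorem swap (h : RankFun R) : RankFun fun v N => R N v where
  left := h.right
  right := h.left
  supermod := fun N v => by have := h.supermod v N; omega

theorem le_left (h : RankFun R) (N v : ℕ) : R N v ≤ 2 * N := (h.left v).le_two_mul N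

theorem le_right (h : RankFun R) (N v : ℕ) : R N v ≤ 2 * v := (h.right N).le_two_mul v

/-- for fixed `N` the rank is eventually constant in `v` -/
theorem exists_stable (h : RankFun R) (N : ℕ) :
    ∃ V, V ≤ 2 * N ∧ ∀ v, V ≤ v → R N v = R N V := by
  by_contra hc
  push Not at hc
  -- all the increments at `V ≤ 2 N` are positive
  have hpos : ∀ V, V ≤ 2 * N → R N V + 1 ≤ R N (V + 1) := by
    intro V hV
    by_contra h1
    obtain ⟨v, hv, hne⟩ := hc V hV
    exact hne ((h.right N).eq_of_le (by omega) hv)
  have h2 : ∀ V, V ≤ 2 * N + 1 → V ≤ R N V := by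
    intro V
    induction V with
    | zero => intro _; omega
    | succ V ih =>
      intro hV
      have h3 := ih (by omega)
      have h4 := hpos V (by omega)
      omega
  have h5 := h2 (2 * N + 1) le_rfl
  have h6 := h.le_left N (2 * N + 1)
  omega

/-- the stable value in `v` -/
def inf (R : ℕ → ℕ → ℕ) (N : ℕ) : ℕ := R N (2 * N)

theorem eq_inf (h : RankFun R) (N v : ℕ) (hv : 2 * N ≤ v) : R N v = inf R N := by
  obtain ⟨V, hV, h1⟩ := h.exists_stable N
  rw [inf, h1 v (hV.trans hv), h1 (2 * N) hV]

theorem le_inf (h : RankFun R) (N v : ℕ) : R N v ≤ inf R N := by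
  have h1 : R N v ≤ R N (max v (2 * N)) := (h.right N).monotone (le_max_left _ _)
  rwa [h.eq_inf N _ (le_max_right _ _)] at h1

theorem conc_inf (h : RankFun R) : Conc (inf R) := by
  have e : ∀ N M, N ≤ M → inf R N = R N (2 * M) := fun N M hNM =>
    (h.eq_inf N (2 * M) (by omega)).symm
  refine ⟨?_, fun n => ?_, fun n => ?_, fun n => ?_⟩
  · exact (h.left 0).zero
  · rw [e n (n + 1) (by omega), e (n + 1) (n + 1) le_rfl]
    exact (h.left _).mono n
  · rw [e n (n + 1) (by omega), e (n + 1) (n + 1) le_rfl]
    exact (h.left _).step n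
  · rw [e n (n + 2) (by omega), e (n + 1) (n + 2) (by omega), e (n + 2) (n + 2) le_rfl]
    exact (h.left _).conc n

/-- Section 5, case (2,2): if the rank is full at infinity in both directions then
`R N N ≥ 2 N - 1`. -/
theorem diag (h : RankFun R) (h1 : ∀ N, ∃ v, R N v = 2 * N) (h2 : ∀ v, ∃ N, R N v = 2 * v)
    (N : ℕ) : 2 * N ≤ R N N + 1 := by
  induction N with
  | zero => omega
  | succ N ih =>
    by_contra hc
    -- `R (N + 1) (N + 1) ≤ 2 N`
    have hlt : R (N + 1) (N + 1) ≤ 2 * N := by omega
    -- the step from `(N + 1, N)` to `(N + 1, N + 1)` is exactly one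
    have s1 : R (N + 1) (N + 1) = R (N + 1) N + 1 := by
      have hm := (h.right (N + 1)).mono N
      have hs := (h.right (N + 1)).step N
      have hA : R (N + 1) N + 1 ≤ R (N + 1) (N + 1) := by
        by_contra hA
        obtain ⟨v, hv⟩ := h1 (N + 1)
        have h3 := (h.right (N + 1)).eq_of_le (n := N) (by omega)
          (le_max_left N v)
        have h4 : R (N + 1) v ≤ R (N + 1) (max N v) :=
          (h.right (N + 1)).monotone (le_max_right N v)
        omega
      have hB : ¬ R (N + 1) N + 2 ≤ R (N + 1) (N + 1) := by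
        intro hB
        have h3 := (h.right (N + 1)).eq_two_mul hB (N + 1) le_rfl
        omega
      omega
    -- the step from `(N, N)` to `(N + 1, N)` is exactly one
    have s2 : R (N + 1) N = R N N + 1 := by
      have hm := (h.left N).mono N
      have hs := (h.left N).step N
      have hA : R N N + 1 ≤ R (N + 1) N := by
        by_contra hA
        obtain ⟨M, hM⟩ := h2 N
        have h3 := (h.left N).eq_of_le (n := N) (by omega) (le_max_left N M)
        have h4 : R M N ≤ R (max N M) N := (h.left N).monotone (le_max_right N M)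
        omega
      have hB : ¬ R N N + 2 ≤ R (N + 1) N := by
        intro hB
        have h3 := (h.left N).eq_two_mul hB (N + 1) le_rfl
        omega
      omega
    omega

/-- The slopes `e₁` (a right element against many left ones) and `e₂`. -/
theorem exists_slopes (h : RankFun R) :
    ∃ e₁ e₂ n₀ C₁ C₂ : ℕ, e₁ ≤ 2 ∧ e₂ ≤ 2 ∧
      (∀ N, n₀ ≤ N → inf R N = e₁ * N + C₁) ∧
      (∀ v, n₀ ≤ v → inf (fun v N => R N v) v = e₂ * v + C₂) ∧
      (∀ N, e₁ * N ≤ inf R N) ∧ (∀ v, e₂ * v ≤ inf (fun v N => R N v) v) ∧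
      (e₁ = 0 ↔ e₂ = 0) := by
  obtain ⟨e₁, n₁, C₁, a1, a2, a3, -⟩ := h.conc_inf.exists_slope
  obtain ⟨e₂, n₂, C₂, b1, b2, b3, -⟩ := h.swap.conc_inf.exists_slope
  have key : ∀ {R' : ℕ → ℕ → ℕ} (h' : RankFun R') {e e' n n' C C' : ℕ},
      (∀ N, n ≤ N → inf R' N = e * N + C) → (∀ v, n' ≤ v → inf (fun v N => R' N v) v = e' * v + C') →
      (∀ v, e' * v ≤ inf (fun v N => R' N v) v) → e = 0 → e' = 0 := by
    intro R' h' e e' n n' C C' c1 _ c3 he
    subst he
    by_contra he'
    -- `R'` is bounded by `C`
    have hb : ∀ N v, R' N v ≤ C := by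
      intro N v
      have d1 : R' N v ≤ R' (max N n) v := (h'.left v).monotone (le_max_left _ _)
      have d2 := h'.le_inf (max N n) v
      rw [c1 _ (le_max_right _ _)] at d2
      omega
    have d3 := c3 (C + 1)
    have d4 : inf (fun v N => R' N v) (C + 1) ≤ C := hb _ _
    have d5 : C + 1 ≤ e' * (C + 1) := Nat.le_mul_of_pos_left _ (Nat.pos_of_ne_zero he')
    omega
  refine ⟨e₁, e₂, max n₁ n₂, C₁, C₂, a1, b1, fun N hN => a2 N ((le_max_left _ _).trans hN),
    fun v hv => b2 v ((le_max_right _ _).trans hv), a3, b3, key h a2 b2 b3, ?_⟩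
  exact key h.swap b2 a2 a3

end RankFun

end Pool.Agent.MP_0c183c.P9
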