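import Mathlib

/-!
# Triangular counting (filtration (3.3) and the counts of (7.2), (7.3) of p9_C_helper29.md)

Arrays are functions `ι × Bool → ι × Bool → Ω`; `grp I p v` is the part of `v` in the blocks `(p, y)`
with `y ∈ I`, `p < y`.
-/

set_option autoImplicit false

namespace Pool.Agent.MP_0c183c.P9

open Module

/-- A triangular family of subspaces: `W i ≤ Θ` and `π j` kills `W i` for `i < j`. -/
theorem sum_finrank_map_le {K V : Type*} [Field K] [AddCommGroup V] [Module K V] {ι : Type*}
    [LinearOrder ι] {G : ι → Type*} [∀ i, AddCommGroup (G i)] [∀ i, Module K (G i)]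
    (π : ∀ i, V →ₗ[K] G i) (W : ι → Submodule K V) (I : Finset ι) :
    ∀ (Θ : Submodule K V) [FiniteDimensional K Θ], (∀ i ∈ I, W i ≤ Θ) →
      (∀ i ∈ I, ∀ j ∈ I, i < j → ∀ w ∈ W i, π j w = 0) →
      ∑ i ∈ I, finrank K ((W i).map (π i)) ≤ finrank K Θ := by
  induction I using Finset.induction_on_max with
  | empty => intro Θ _ _ _; simp
  | insert m I hm ih =>
    intro Θ hfin hW hπ
    have hmI : m ∉ I := fun h => lt_irrefl _ (hm m h)
    rw [Finset.sum_insert hmI]
    -- the kernel of `π m` in `Θ`
    set Θ' : Submodule K V := Θ ⊓ LinearMap.ker (π m) with hΘ'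
    have hle : Θ' ≤ Θ := inf_le_left
    have : FiniteDimensional K Θ' := Submodule.finiteDimensional_of_le hle
    have h1 : ∑ i ∈ I, finrank K ((W i).map (π i)) ≤ finrank K Θ' := by
      refine ih Θ' (fun i hi w hw => ⟨hW i (Finset.mem_insert_of_mem hi) hw, ?_⟩)
        (fun i hi j hj => hπ i (Finset.mem_insert_of_mem hi) j (Finset.mem_insert_of_mem hj))
      exact hπ i (Finset.mem_insert_of_mem hi) m (Finset.mem_insert_self _ _) (hm i hi) w hw
    -- rank-nullity for `π m` on `Θ`
    have h2 : finrank K (Θ.map (π m)) + finrank K Θ' = finrank K Θ := by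
      have h3 := LinearMap.finrank_range_add_finrank_ker ((π m).domRestrict Θ)
      have h4 : LinearMap.range ((π m).domRestrict Θ) = Θ.map (π m) := by
        rw [LinearMap.range_domRestrict]
      have h5 : finrank K (LinearMap.ker ((π m).domRestrict Θ)) = finrank K Θ' := by
        have h6 : Θ' = (LinearMap.ker ((π m).domRestrict Θ)).map Θ.subtype := by
          ext w
          simp only [hΘ', Submodule.mem_inf, LinearMap.mem_ker, Submodule.mem_map,
            Submodule.subtype_apply, Subtype.exists, LinearMap.domRestrict_apply]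
          constructor
          · rintro ⟨h7, h8⟩
            exact ⟨w, h7, h8, rfl⟩
          · rintro ⟨w', h7, h8, rfl⟩
            exact ⟨h7, h8⟩
        rw [h6]
        exact (LinearEquiv.finrank_eq (Submodule.equivMapOfInjective _
          (Submodule.injective_subtype Θ) _))
      rw [← h4, ← h5, h3]
    have h9 : finrank K ((W m).map (π m)) ≤ finrank K (Θ.map (π m)) :=
      Submodule.finrank_mono (Submodule.map_mono (hW m (Finset.mem_insert_self _ _)))
    omega

variable {Ω : Type*} [Field Ω] {ι : Type*} [LinearOrder ι]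

/-- restriction of a row to the elements of `Y` -/
def res (Y : Finset ι) : (ι × Bool → Ω) →ₗ[Ω] (ι × Bool → Ω) where
  toFun φ := fun y => if y.1 ∈ Y then φ y else 0
  map_add' φ ψ := by
    funext y
    by_cases h : y.1 ∈ Y <;> simp [h]
  map_smul' c φ := by
    funext y
    by_cases h : y.1 ∈ Y <;> simp [h]

theorem res_apply (Y : Finset ι) (φ : ι × Bool → Ω) (y : ι × Bool) :
    res Y φ y = if y.1 ∈ Y then φ y else 0 := rfl

/-- the elements of `I` right of `p` -/
def rt (I : Finset ι) (p : ι) : Finset ι := I.filter fun y => p < y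

theorem mem_rt {I : Finset ι} {p y : ι} : y ∈ rt I p ↔ y ∈ I ∧ p < y := by
  simp [rt]

/-- the blocks `(p, y)`, `y ∈ I`, `p < y`, of an array -/
def grp (I : Finset ι) (p : ι) : (ι × Bool → ι × Bool → Ω) →ₗ[Ω] (Bool → ι × Bool → Ω) where
  toFun v := fun s => res (rt I p) (v (p, s))
  map_add' v w := by
    funext s
    change res (rt I p) (v (p, s) + w (p, s)) = _
    rw [map_add]
    rfl
  map_smul' c v := by
    funext s
    change res (rt I p) (c • v (p, s)) = _
    rw [map_smul]
    rfl

theorem grp_apply (I : Finset ι) (p : ι) (v : ι × Bool → ι × Bool → Ω) (s : Bool) (y : ι × Bool) :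
    grp I p v s y = if y.1 ∈ rt I p then v (p, s) y else 0 := rfl

/-- the tensor of a covector at `p` with a row -/
def tens (lam : Bool → Ω) : (ι × Bool → Ω) →ₗ[Ω] (Bool → ι × Bool → Ω) where
  toFun φ := fun s => lam s • φ
  map_add' φ ψ := by
    funext s
    simp
  map_smul' c φ := by
    funext s
    simp only [RingHom.id_apply, Pi.smul_apply]
    rw [smul_comm]

omit [LinearOrder ι] in
theorem tens_injective {lam : Bool → Ω} (h : lam ≠ 0) :
    Function.Injective (tens lam : (ι × Bool → Ω) →ₗ[Ω] (Bool → ι × Bool → Ω)) := by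
  obtain ⟨s, hs⟩ := Function.ne_iff.mp h
  intro φ ψ hφ
  have h1 : lam s • φ = lam s • ψ := congrFun hφ s
  exact smul_right_injective _ (by simpa using hs) h1

/-- The number of pairs. -/
theorem sum_card_rt (I : Finset ι) : 2 * ∑ p ∈ I, (rt I p).card = I.card * (I.card - 1) := by
  induction I using Finset.induction_on_max with
  | empty => simp
  | insert m I hm ih =>
    have hmI : m ∉ I := fun h => lt_irrefl _ (hm m h)
    rw [Finset.sum_insert hmI, Finset.card_insert_of_notMem hmI]
    have h1 : (rt (insert m I) m).card = 0 := by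
      rw [Finset.card_eq_zero, Finset.eq_empty_iff_forall_notMem]
      intro y hy
      rw [mem_rt, Finset.mem_insert] at hy
      rcases hy with ⟨rfl | h, h'⟩
      · exact lt_irrefl _ h'
      · exact lt_asymm h' (hm y h)
    have h2 : ∀ p ∈ I, (rt (insert m I) p).card = (rt I p).card + 1 := by
      intro p hp
      have h3 : rt (insert m I) p = insert m (rt I p) := by
        ext y
        simp only [mem_rt, Finset.mem_insert]
        constructor
        · rintro ⟨rfl | h, h'⟩
          · exact Or.inl rfl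
          · exact Or.inr ⟨h, h'⟩
        · rintro (rfl | ⟨h, h'⟩)
          · exact ⟨Or.inl rfl, hm p hp⟩
          · exact ⟨Or.inr h, h'⟩
      rw [h3, Finset.card_insert_of_notMem fun h => hmI (mem_rt.mp h).1]
    rw [h1, Finset.sum_congr rfl h2, Finset.sum_add_distrib, Finset.sum_const, smul_eq_mul, mul_one,
      zero_add, Nat.mul_add, ih]
    cases I.card with
    | zero => simp
    | succ k =>
      simp only [Nat.add_sub_cancel]
      ring

/-- **Counting.** For `p ∈ I` the vectors `v p b ∈ Θ`, `b ∈ B p`, live on the groups `≤ p`, and on the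
group `p` they are nonzero multiples of `lam p ⊗ m b`. -/
theorem count (I : Finset ι) (Θ : Submodule Ω (ι × Bool → ι × Bool → Ω)) [FiniteDimensional Ω Θ]
    (B : ι → Finset ι) (v : ι → ι → ι × Bool → ι × Bool → Ω) (lam : ι → Bool → Ω)
    (m : ι → ι × Bool → Ω) (c : ι → ι → Ω) (C : ℕ)
    (hΘ : ∀ p ∈ I, ∀ b ∈ B p, v p b ∈ Θ)
    (hsupp : ∀ p ∈ I, ∀ b ∈ B p, ∀ q ∈ I, p < q → grp I q (v p b) = 0)
    (hval : ∀ p ∈ I, ∀ b ∈ B p, grp I p (v p b) = c p b • tens (lam p) (res (rt I p) (m b)))
    (hc : ∀ p ∈ I, ∀ b ∈ B p, c p b ≠ 0) (hlam : ∀ p ∈ I, lam p ≠ 0)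
    (hrank : ∀ p ∈ I, (rt I p).card ≤
      finrank Ω (Submodule.span Ω ((fun b => res (rt I p) (m b)) '' (B p : Set ι))) + C) :
    I.card * (I.card - 1) ≤ 2 * finrank Ω Θ + 2 * C * I.card := by
  rw [← sum_card_rt]
  have h1 := sum_finrank_map_le (K := Ω) (G := fun _ => Bool → ι × Bool → Ω) (fun p => grp I p)
    (fun p => Submodule.span Ω (v p '' (B p : Set ι))) I Θ
    (fun p hp => by
      rw [Submodule.span_le]
      rintro _ ⟨b, hb, rfl⟩
      exact hΘ p hp b hb)
    (fun p hp q hq hpq w hw => by
      have h2 : Submodule.span Ω (v p '' (B p : Set ι)) ≤ LinearMap.ker (grp I q) := by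
        rw [Submodule.span_le]
        rintro _ ⟨b, hb, rfl⟩
        exact hsupp p hp b hb q hq hpq
      exact h2 hw)
  have h3 : ∀ p ∈ I, (rt I p).card ≤
      finrank Ω ((Submodule.span Ω (v p '' (B p : Set ι))).map (grp I p)) + C := by
    intro p hp
    refine (hrank p hp).trans ?_
    have h4 : (Submodule.span Ω ((fun b => res (rt I p) (m b)) '' (B p : Set ι))).map
        (tens (lam p)) ≤ (Submodule.span Ω (v p '' (B p : Set ι))).map (grp I p) := by
      rw [Submodule.map_span, Submodule.span_le]
      rintro _ ⟨_, ⟨b, hb, rfl⟩, rfl⟩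
      refine ⟨(c p b)⁻¹ • v p b, Submodule.smul_mem _ _ (Submodule.subset_span ⟨b, hb, rfl⟩), ?_⟩
      rw [map_smul, hval p hp b hb, smul_smul, inv_mul_cancel₀ (hc p hp b hb), one_smul]
    have h5 : finrank Ω ((Submodule.span Ω ((fun b => res (rt I p) (m b)) '' (B p : Set ι))).map
        (tens (lam p))) = finrank Ω
          (Submodule.span Ω ((fun b => res (rt I p) (m b)) '' (B p : Set ι))) :=
      (LinearEquiv.finrank_eq (Submodule.equivMapOfInjective _
          (tens_injective (hlam p hp)) _)).symm
    have : FiniteDimensional Ω (Submodule.span Ω (v p '' (B p : Set ι))) :=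
      FiniteDimensional.span_of_finite Ω ((B p).finite_toSet.image _)
    have h6 := Submodule.finrank_mono h4
    omega
  have h7 : ∑ p ∈ I, (rt I p).card ≤
      ∑ p ∈ I, (finrank Ω ((Submodule.span Ω (v p '' (B p : Set ι))).map (grp I p)) + C) :=
    Finset.sum_le_sum h3
  rw [Finset.sum_add_distrib, Finset.sum_const, smul_eq_mul] at h7
  have h8 : 2 * C * I.card = 2 * (I.card * C) := by ring
  omega

end Pool.Agent.MP_0c183c.P9
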