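import Pool.Agent.Lib.MP_0c183c_p9.TanZero

/-!
# Section 7b, the algebra of helper96's (S3)

`κ` is a relation with components `w x`, `x ∈ X`, and `w b`; after the absorption of `b` the rows
`n''_x` satisfy `∑ n''_x = (1 + t P(κ', u)) n_b + t P(κ', w_b) m_b`.
-/

set_option autoImplicit false

namespace Pool.Agent.MP_0c183c.P9

open MvPolynomial Pool.Agent.Lib.MP_0c183c_co_P9T

section Defs

variable {ι : Type*} {Ω : Type*} [CommRing Ω]

/-- the row `P(w, .)` of the vector `w` at the element `b` -/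
def nrow (M : ι × Bool → ι × Bool → Ω) (b : ι) (w : Bool → Ω) : ι × Bool → Ω :=
  fun y => w false * M (b, false) y + w true * M (b, true) y

variable [DecidableEq ι]

/-- the symmetric vector `λ ⊗ φ` in the row and column of `a` -/
def rvec (a : ι) (lam : Bool → Ω) (φ : ι × Bool → Ω) : ι × Bool → ι × Bool → Ω :=
  fun x y => if x.1 = a then (if y.1 = a then 0 else lam x.2 * φ y)
    else (if y.1 = a then lam y.2 * φ x else 0)

/-- the covector with kernel `w` -/
def cov (w : Bool → Ω) : Bool → Ω := fun s => w (!s)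

end Defs

variable {ι : Type*} [DecidableEq ι] {Ω : Type*} [Field Ω]

theorem rowv_eq_rvec (M : ι × Bool → ι × Bool → Ω) (hM : ∀ x y, M x y = M y x) (a b : ι)
    (lam w : Bool → Ω) :
    rowv M b a (fun q => lam q.1 * cov w q.2) = rvec a lam (nrow M b w) := by
  funext x y
  simp only [rowv, rvec, nrow, cov, Bool.not_false, Bool.not_true]
  split_ifs
  · rfl
  · ring
  · rw [hM x (b, true), hM x (b, false)]
    ring
  · rfl

omit [DecidableEq ι] in
/-- the rows after the absorption of `b` -/
theorem nrow_absb (M : ι × Bool → ι × Bool → Ω) (b x : ι) (t : Ω) (w : Bool → Ω)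
    (y : ι × Bool) : nrow (absb M b t) x w y =
      nrow M x w y + t * (nrow M x w (b, false) * M (b, true) y +
        nrow M x w (b, true) * M (b, false) y) := by
  simp only [nrow, absb]
  ring

/-- (S3), the formula. -/
theorem sum_nrow_absb [CharP Ω 2] (M : ι × Bool → ι × Bool → Ω) (b : ι) (t : Ω)
    (X : Finset ι) (w : ι → Bool → Ω) (u : Bool → Ω)
    (hu : w b false * u true + w b true * u false = 1) (y : ι × Bool)
    (hrel : ∑ x ∈ X, nrow M x (w x) y + nrow M b (w b) y = 0) :
    ∑ x ∈ X, nrow (absb M b t) x (w x) y =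
      (1 + t * (u false * (∑ x ∈ X, nrow M x (w x) (b, false)) +
        u true * (∑ x ∈ X, nrow M x (w x) (b, true)))) * nrow M b (w b) y +
      t * (w b false * (∑ x ∈ X, nrow M x (w x) (b, false)) +
        w b true * (∑ x ∈ X, nrow M x (w x) (b, true))) * nrow M b u y := by
  have h2 : (2 : Ω) = 0 := CharTwo.two_eq_zero
  have h1 : ∑ x ∈ X, nrow (absb M b t) x (w x) y = ∑ x ∈ X, nrow M x (w x) y +
      t * ((∑ x ∈ X, nrow M x (w x) (b, false)) * M (b, true) y +
        (∑ x ∈ X, nrow M x (w x) (b, true)) * M (b, false) y) := by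
    simp only [nrow_absb, Finset.sum_add_distrib, ← Finset.mul_sum, Finset.sum_mul]
  rw [h1]
  generalize (∑ x ∈ X, nrow M x (w x) (b, false)) = Kf at *
  generalize (∑ x ∈ X, nrow M x (w x) (b, true)) = Kt at *
  generalize (∑ x ∈ X, nrow M x (w x) y) = S at *
  simp only [nrow] at hrel ⊢
  have e1 : (w b false * u true + w b true * u false) * (Kf * M (b, true) y + Kt * M (b, false) y) =
      Kf * M (b, true) y + Kt * M (b, false) y := by rw [hu, one_mul]
  have e2 : S = w b false * M (b, false) y + w b true * M (b, true) y := by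
    linear_combination hrel - (w b false * M (b, false) y + w b true * M (b, true) y) * h2
  rw [e2, ← e1]
  linear_combination (- (t * (w b false * Kf * (u false * M (b, false) y) +
    w b true * Kt * (u true * M (b, true) y)))) * h2

theorem rvec_add (a : ι) (lam : Bool → Ω) (φ ψ : ι × Bool → Ω) :
    rvec a lam (φ + ψ) = rvec a lam φ + rvec a lam ψ := by
  funext x y
  simp only [rvec, Pi.add_apply]
  split_ifs <;> ring

theorem rvec_smul (a : ι) (lam : Bool → Ω) (c : Ω) (φ : ι × Bool → Ω) :
    rvec a lam (c • φ) = c • rvec a lam φ := by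
  funext x y
  simp only [rvec, Pi.smul_apply, smul_eq_mul]
  split_ifs <;> ring

/-- `rvec` as a linear map, restricted to a set of pairs -/
def rvecL (B : Set (Pr ι)) (a : ι) (lam : Bool → Ω) : (ι × Bool → Ω) →ₗ[Ω] (B → Ω) where
  toFun φ := fam B (rvec a lam φ)
  map_add' φ ψ := by
    rw [rvec_add]; rfl
  map_smul' c φ := by
    rw [rvec_smul]; rfl

theorem rvecL_apply (B : Set (Pr ι)) (a : ι) (lam : Bool → Ω) (φ : ι × Bool → Ω) :
    rvecL B a lam φ = fam B (rvec a lam φ) := rfl

/-- only the values of the row over `I - a` matter -/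
theorem rvecL_congr (I : Finset ι) (a : ι) (lam : Bool → Ω) (φ ψ : ι × Bool → Ω)
    (h : ∀ y : ι × Bool, y.1 ∈ I → y.1 ≠ a → φ y = ψ y) :
    rvecL (off I) a lam φ = rvecL (off I) a lam ψ := by
  funext i
  rw [rvecL_apply, rvecL_apply]
  obtain ⟨⟨x, y⟩, hx, hy, hxy⟩ := i
  simp only [fam, rvec]
  split_ifs with h1 h2 h2
  · rfl
  · rw [h y hy h2]
  · rw [h x hx h1]
  · rfl

variable {k : Type*} [CommRing k] [Algebra k Ω]

/-- (S3): from `λ ⊗ n''_x` and `λ ⊗ n_b` to `λ ⊗ m_b`, in the tangent space after the absorption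
of `b`. -/
theorem rvec_mem_Tan_absb [CharP Ω 2] (M : ι × Bool → ι × Bool → Ω) (I : Finset ι) (a b : ι)
    (lam : Bool → Ω) (t : Ω) (ht : t ≠ 0) (X : Finset ι) (w : ι → Bool → Ω) (u : Bool → Ω)
    (hu : w b false * u true + w b true * u false = 1)
    (hrel : ∀ y : ι × Bool, y.1 ∈ I → y.1 ≠ a →
      ∑ x ∈ X, nrow M x (w x) y + nrow M b (w b) y = 0)
    (h1 : ∀ x ∈ X, fam (off I) (rvec a lam (nrow (absb M b t) x (w x))) ∈
      Tan k (fam (off I) (absb M b t)))
    (h2 : fam (off I) (rvec a lam (nrow M b (w b))) ∈ Tan k (fam (off I) (absb M b t)))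
    (hβ : w b false * (∑ x ∈ X, nrow M x (w x) (b, false)) +
        w b true * (∑ x ∈ X, nrow M x (w x) (b, true)) ≠ 0) :
    fam (off I) (rvec a lam (nrow M b u)) ∈ Tan k (fam (off I) (absb M b t)) := by
  set α := u false * (∑ x ∈ X, nrow M x (w x) (b, false)) +
        u true * (∑ x ∈ X, nrow M x (w x) (b, true)) with hα
  set β := w b false * (∑ x ∈ X, nrow M x (w x) (b, false)) +
        w b true * (∑ x ∈ X, nrow M x (w x) (b, true)) with hβ'
  have h3 : rvecL (off I) a lam (∑ x ∈ X, nrow (absb M b t) x (w x)) =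
      rvecL (off I) a lam ((1 + t * α) • nrow M b (w b) + (t * β) • nrow M b u) := by
    refine rvecL_congr I a lam _ _ fun y hy hya => ?_
    rw [Finset.sum_apply, Pi.add_apply, Pi.smul_apply, Pi.smul_apply, smul_eq_mul, smul_eq_mul]
    exact sum_nrow_absb M b t X w u hu y (hrel y hy hya)
  have h4 : rvecL (off I) a lam (∑ x ∈ X, nrow (absb M b t) x (w x)) ∈
      Tan k (fam (off I) (absb M b t)) := by
    rw [map_sum]
    exact Submodule.sum_mem _ fun x hx => h1 x hx
  have h5 : rvecL (off I) a lam (nrow M b (w b)) ∈ Tan k (fam (off I) (absb M b t)) := h2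
  have h6 : (t * β) • rvecL (off I) a lam (nrow M b u) ∈ Tan k (fam (off I) (absb M b t)) := by
    rw [h3, map_add, map_smul, map_smul] at h4
    have h7 := Submodule.sub_mem _ h4 (Submodule.smul_mem _ (1 + t * α) h5)
    rwa [add_sub_cancel_left] at h7
  have h8 := Submodule.smul_mem (Tan k (fam (off I) (absb M b t))) (t * β)⁻¹ h6
  rw [smul_smul, inv_mul_cancel₀ (mul_ne_zero ht hβ), one_smul] at h8
  exact h8

end Pool.Agent.MP_0c183c.P9
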