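import Pool.Agent.Lib.MP_0c183c_p9.Count
import Pool.Agent.Lib.MP_0c183c_p9.S3

/-!
# Section 7b, the count for row vectors
-/

set_option autoImplicit false

namespace Pool.Agent.MP_0c183c.P9

open Module MvPolynomial Pool.Agent.Lib.MP_0c183c_co_P9T

variable {ι : Type*} [LinearOrder ι] {Ω : Type*} [Field Ω]

theorem finite_off (I : Finset ι) : (off I).Finite := by
  refine ((I ×ˢ (Finset.univ : Finset Bool)) ×ˢ (I ×ˢ (Finset.univ : Finset Bool))).finite_toSet.subset
    fun p hp => ?_
  simp only [Finset.coe_product, Set.mem_prod, Finset.mem_coe, Finset.mem_univ, and_true]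
  exact ⟨hp.1, hp.2.1⟩

instance (I : Finset ι) : Finite (off I) := (finite_off I).to_subtype

/-- extension by zero of a function on `off I` -/
noncomputable def ext0 (I : Finset ι) : (off I → Ω) →ₗ[Ω] (ι × Bool → ι × Bool → Ω) := by
  classical
  exact
    { toFun := fun v x y => if h : (x, y) ∈ off I then v ⟨(x, y), h⟩ else 0
      map_add' := fun v w => by
        funext x y
        simp only [Pi.add_apply]
        split_ifs <;> simp
      map_smul' := fun c v => by
        funext x y
        simp only [Pi.smul_apply, RingHom.id_apply, smul_eq_mul]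
        split_ifs <;> simp }

theorem ext0_apply (I : Finset ι) (v : off I → Ω) (x y : ι × Bool) (h : (x, y) ∈ off I) :
    ext0 I v x y = v ⟨(x, y), h⟩ := by
  classical
  change (if h : (x, y) ∈ off I then v ⟨(x, y), h⟩ else 0) = _
  rw [dif_pos h]

theorem ext0_apply_not (I : Finset ι) (v : off I → Ω) (x y : ι × Bool) (h : (x, y) ∉ off I) :
    ext0 I v x y = 0 := by
  classical
  change (if h : (x, y) ∈ off I then v ⟨(x, y), h⟩ else 0) = _
  rw [dif_neg h]

theorem ext0_injective (I : Finset ι) :
    Function.Injective (ext0 I : (off I → Ω) →ₗ[Ω] (ι × Bool → ι × Bool → Ω)) := by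
  intro v w h
  funext i
  have := congrFun (congrFun h i.1.1) i.1.2
  rwa [ext0_apply I v _ _ i.2, ext0_apply I w _ _ i.2] at this

/-- **Count for row vectors.** -/
theorem count_rvec (I : Finset ι) (Θ : Submodule Ω (off I → Ω)) (B : ι → Finset ι)
    (lam : ι → Bool → Ω) (m : ι → ι × Bool → Ω) (C : ℕ)
    (hΘ : ∀ p ∈ I, ∀ b ∈ B p, fam (off I) (rvec p (lam p) (m b)) ∈ Θ)
    (hlam : ∀ p ∈ I, lam p ≠ 0)
    (hrank : ∀ p ∈ I, (rt I p).card ≤
      finrank Ω (Submodule.span Ω ((fun b => res (rt I p) (m b)) '' (B p : Set ι))) + C) :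
    I.card * (I.card - 1) ≤ 2 * finrank Ω Θ + 2 * C * I.card := by
  have h1 : finrank Ω (Θ.map (ext0 I)) = finrank Ω Θ :=
    (LinearEquiv.finrank_eq (Submodule.equivMapOfInjective _ (ext0_injective I) _)).symm
  rw [← h1]
  refine count I (Θ.map (ext0 I)) B (fun p b => ext0 I (fam (off I) (rvec p (lam p) (m b)))) lam m
    (fun _ _ => 1) C ?_ ?_ ?_ (fun _ _ _ _ => one_ne_zero) hlam hrank
  · intro p hp b hb
    exact ⟨_, hΘ p hp b hb, rfl⟩
  · intro p hp b hb q hq hpq
    funext s y
    rw [grp_apply]
    split_ifs with hy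
    · rw [mem_rt] at hy
      have hmem : ((q, s), y) ∈ off I := ⟨hq, hy.1, hy.2.ne⟩
      rw [ext0_apply I _ _ _ hmem]
      change rvec p (lam p) (m b) (q, s) y = 0
      simp only [rvec]
      rw [if_neg hpq.ne', if_neg (hpq.trans hy.2).ne']
    · rfl
  · intro p hp b hb
    funext s y
    rw [grp_apply]
    simp only [one_smul]
    change _ = lam p s * (if y.1 ∈ rt I p then m b y else 0)
    split_ifs with hy
    · rw [mem_rt] at hy
      have hmem : ((p, s), y) ∈ off I := ⟨hp, hy.1, hy.2.ne⟩
      rw [ext0_apply I _ _ _ hmem]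
      change rvec p (lam p) (m b) (p, s) y = _
      simp only [rvec]
      rw [if_pos trivial, if_neg hy.2.ne']
    · rw [mul_zero]

/-- The rows `m_b` are almost independent: the rows `n_b` have rank `≤ C`, all the rows of the
elements `b ∈ B` have rank `≥ N`. -/
theorem le_finrank_mrow (M : ι × Bool → ι × Bool → Ω) (B Y : Finset ι) (w u : ι → Bool → Ω)
    (hdet : ∀ b ∈ B, w b false * u b true - w b true * u b false ≠ 0) (N C : ℕ)
    (hN : N ≤ finrank Ω (Submodule.span Ω
      ((fun x : ι × Bool => res Y (M x)) '' {x | x.1 ∈ B})))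
    (hC : finrank Ω (Submodule.span Ω ((fun b => res Y (nrow M b (w b))) '' (B : Set ι))) ≤ C) :
    N ≤ finrank Ω (Submodule.span Ω ((fun b => res Y (nrow M b (u b))) '' (B : Set ι))) + C := by
  set S := Submodule.span Ω ((fun x : ι × Bool => res Y (M x)) '' {x | x.1 ∈ B})
  set Sw := Submodule.span Ω ((fun b => res Y (nrow M b (w b))) '' (B : Set ι))
  set Su := Submodule.span Ω ((fun b => res Y (nrow M b (u b))) '' (B : Set ι))
  have hle : S ≤ Sw ⊔ Su := by
    rw [Submodule.span_le]
    rintro _ ⟨⟨b, s⟩, hb, rfl⟩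
    have hb' : b ∈ B := hb
    have hw : res Y (nrow M b (w b)) ∈ Sw ⊔ Su :=
      Submodule.mem_sup_left (Submodule.subset_span ⟨b, hb', rfl⟩)
    have hu : res Y (nrow M b (u b)) ∈ Sw ⊔ Su :=
      Submodule.mem_sup_right (Submodule.subset_span ⟨b, hb', rfl⟩)
    have hd := hdet b hb'
    have hn : ∀ v : Bool → Ω, nrow M b v = v false • M (b, false) + v true • M (b, true) := by
      intro v
      funext y
      simp [nrow]
    cases s with
    | false =>
      have h1 : res Y (M (b, false)) = (w b false * u b true - w b true * u b false)⁻¹ •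
          (u b true • res Y (nrow M b (w b)) - w b true • res Y (nrow M b (u b))) := by
        rw [hn, hn, map_add, map_add, map_smul, map_smul, map_smul, map_smul, eq_inv_smul_iff₀ hd]
        module
      change res Y (M (b, false)) ∈ _
      rw [h1]
      exact Submodule.smul_mem _ _ (Submodule.sub_mem _ (Submodule.smul_mem _ _ hw)
        (Submodule.smul_mem _ _ hu))
    | true =>
      have h1 : res Y (M (b, true)) = (w b false * u b true - w b true * u b false)⁻¹ •
          (w b false • res Y (nrow M b (u b)) - u b false • res Y (nrow M b (w b))) := by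
        rw [hn, hn, map_add, map_add, map_smul, map_smul, map_smul, map_smul, eq_inv_smul_iff₀ hd]
        module
      change res Y (M (b, true)) ∈ _
      rw [h1]
      exact Submodule.smul_mem _ _ (Submodule.sub_mem _ (Submodule.smul_mem _ _ hu)
        (Submodule.smul_mem _ _ hw))
  have f1 : FiniteDimensional Ω Sw := FiniteDimensional.span_of_finite Ω (B.finite_toSet.image _)
  have f2 : FiniteDimensional Ω Su := FiniteDimensional.span_of_finite Ω (B.finite_toSet.image _)
  have h2 : finrank Ω S ≤ finrank Ω (Sw ⊔ Su : Submodule Ω (ι × Bool → Ω)) :=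
    Submodule.finrank_mono hle
  have h3 := Submodule.finrank_add_le_finrank_add_finrank Sw Su
  omega

end Pool.Agent.MP_0c183c.P9
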