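import Pool.Agent.Lib.MP_0c183c_p9.Step7b
import Pool.Agent.Lib.MP_0c183c_co_P9A.RankW

/-!
# Section 7b, integer grids and ranks
-/

set_option autoImplicit false

namespace Pool.Agent.MP_0c183c.P9

open Module MvPolynomial Pool.Agent.Lib.MP_0c183c_co_P9W Pool.Agent.Lib.MP_0c183c_co_P9S7
  Pool.Agent.Lib.MP_0c183c_co_P9F Pool.Agent.Lib.P9RankMat
open Pool.Agent.Lib.MP_0c183c_co_P9T (Tan mem_Tan Tan_comp Sp absb fam off allp Pr ents)

/-- the integers of `[a, b]` as rationals -/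
noncomputable def ZI (a b : ℤ) : Finset ℚ := (Finset.Icc a b).image (fun z : ℤ => (z : ℚ))

theorem mem_ZI {a b : ℤ} {q : ℚ} : q ∈ ZI a b ↔ ∃ z : ℤ, (a ≤ z ∧ z ≤ b) ∧ (z : ℚ) = q := by
  simp [ZI]

theorem cast_mem_ZI {a b z : ℤ} : (z : ℚ) ∈ ZI a b ↔ a ≤ z ∧ z ≤ b := by
  rw [mem_ZI]
  constructor
  · rintro ⟨w, h, hw⟩
    have : w = z := by exact_mod_cast hw
    rwa [this] at h
  · intro h
    exact ⟨z, h, rfl⟩

theorem card_ZI (a b : ℤ) : (ZI a b).card = (b + 1 - a).toNat := by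
  rw [ZI, Finset.card_image_of_injective _ Int.cast_injective, Int.card_Icc]

theorem ZI_mono {a b a' b' : ℤ} (h : a' ≤ a) (h' : b ≤ b') : ZI a b ⊆ ZI a' b' := by
  intro q hq
  obtain ⟨z, hz, rfl⟩ := mem_ZI.1 hq
  exact cast_mem_ZI.2 ⟨h.trans hz.1, hz.2.trans h'⟩

/-- the common frame -/
noncomputable def KK (ρ N : ℕ) (M : ℤ) : Finset ℚ :=
  ZI (-ρ - N) (-ρ - 1) ∪ ZI (M + 1) (M + N)

theorem mem_KK {ρ N : ℕ} {M : ℤ} {q : ℚ} : q ∈ KK ρ N M ↔
    ∃ z : ℤ, ((-(ρ : ℤ) - N ≤ z ∧ z ≤ -ρ - 1) ∨ (M + 1 ≤ z ∧ z ≤ M + N)) ∧ (z : ℚ) = q := by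
  rw [KK, Finset.mem_union, mem_ZI, mem_ZI]
  constructor
  · rintro (⟨z, h, rfl⟩ | ⟨z, h, rfl⟩)
    · exact ⟨z, Or.inl h, rfl⟩
    · exact ⟨z, Or.inr h, rfl⟩
  · rintro ⟨z, h | h, rfl⟩
    · exact Or.inl ⟨z, h, rfl⟩
    · exact Or.inr ⟨z, h, rfl⟩

theorem around_ZI {ρ N : ℕ} {M c d : ℤ} (hc : -(ρ : ℤ) ≤ c) (hd : d ≤ M) (hcd : c ≤ d) :
    Around N (ZI c d) (KK ρ N M) := by
  refine ⟨?_, ?_, ?_⟩
  · intro j hj
    obtain ⟨z, h | h, rfl⟩ := mem_KK.1 hj
    · left
      intro x hx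
      obtain ⟨w, hw, rfl⟩ := mem_ZI.1 hx
      have : z < w := by omega
      exact_mod_cast this
    · right
      intro x hx
      obtain ⟨w, hw, rfl⟩ := mem_ZI.1 hx
      have : w < z := by omega
      exact_mod_cast this
  · have h1 : (ZI (-(ρ : ℤ) - N) (-ρ - 1)).card = N := by
      rw [card_ZI]; omega
    calc N = (ZI (-(ρ : ℤ) - N) (-ρ - 1)).card := h1.symm
      _ ≤ _ := Finset.card_le_card fun q hq => by
          rw [Finset.mem_filter]
          refine ⟨Finset.mem_union_left _ hq, fun x hx => ?_⟩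
          obtain ⟨z, hz, rfl⟩ := mem_ZI.1 hq
          obtain ⟨w, hw, rfl⟩ := mem_ZI.1 hx
          have : z < w := by omega
          exact_mod_cast this
  · have h1 : (ZI (M + 1) (M + N)).card = N := by
      rw [card_ZI]; omega
    calc N = (ZI (M + 1) (M + N)).card := h1.symm
      _ ≤ _ := Finset.card_le_card fun q hq => by
          rw [Finset.mem_filter]
          refine ⟨Finset.mem_union_right _ hq, fun x hx => ?_⟩
          obtain ⟨z, hz, rfl⟩ := mem_ZI.1 hq
          obtain ⟨w, hw, rfl⟩ := mem_ZI.1 hx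
          have : w < z := by omega
          exact_mod_cast this

/-! ### A vector with determinant one -/

theorem exists_u {k Ω : Type*} [CommRing k] [Field Ω] [Algebra k Ω] (A : Subalgebra k Ω)
    (w : Bool → Ω) (hw : w false ≠ 0 ∨ w true ≠ 0) :
    ∃ (u : Bool → Ω) (d : Ω), d ≠ 0 ∧ (∀ s, d * u s ∈ A) ∧
      w false * u true + w true * u false = 1 := by
  by_cases h : w false = 0
  · have h' : w true ≠ 0 := by tauto
    refine ⟨fun s => if s then 0 else (w true)⁻¹, w true, h', ?_, ?_⟩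
    · intro s
      cases s
      · simp only [Bool.false_eq_true, if_false]
        rw [mul_inv_cancel₀ h']
        exact A.one_mem
      · simp only [if_true, mul_zero]
        exact A.zero_mem
    · simp [h']
  · refine ⟨fun s => if s then (w false)⁻¹ else 0, w false, h, ?_, ?_⟩
    · intro s
      cases s
      · simp only [Bool.false_eq_true, if_false, mul_zero]
        exact A.zero_mem
      · simp only [if_true]
        rw [mul_inv_cancel₀ h]
        exact A.one_mem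
    · simp [h]

/-! ### Backward recursion -/

theorem mem_span_of_recursion {K V : Type*} [Field K] [AddCommGroup V] [Module K V] (n : ℤ → V)
    (A B : ℤ) (ρ : ℕ)
    (h : ∀ z, A ≤ z → z ≤ B → n z ∈ Submodule.span K (n '' {z' | z < z' ∧ z' ≤ z + ρ})) :
    ∀ (k : ℕ) (z : ℤ), A ≤ z → z ≤ B → (B - z).toNat ≤ k →
      n z ∈ Submodule.span K (n '' {z' | B < z' ∧ z' ≤ B + ρ}) := by
  intro k
  induction k with
  | zero =>
    intro z hA hB hk
    have hz : z = B := by omega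
    subst hz
    exact h z hA hB
  | succ k ih =>
    intro z hA hB hk
    have h1 : Submodule.span K (n '' {z' | z < z' ∧ z' ≤ z + ρ}) ≤
        Submodule.span K (n '' {z' | B < z' ∧ z' ≤ B + ρ}) := by
      rw [Submodule.span_le]
      rintro _ ⟨z', hz', rfl⟩
      simp only [Set.mem_ofPred_eq] at hz'
      by_cases hzB : z' ≤ B
      · exact ih z' (by omega) hzB (by omega)
      · exact Submodule.subset_span ⟨z', ⟨by omega, by omega⟩, rfl⟩
    exact h1 (h z hA hB)

theorem finrank_span_recursion {K V : Type*} [Field K] [AddCommGroup V] [Module K V] (n : ℤ → V)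
    (A B : ℤ) (ρ : ℕ)
    (h : ∀ z, A ≤ z → z ≤ B → n z ∈ Submodule.span K (n '' {z' | z < z' ∧ z' ≤ z + ρ})) :
    finrank K (Submodule.span K (n '' {z | A ≤ z ∧ z ≤ B})) ≤ ρ := by
  classical
  have h1 : Submodule.span K (n '' {z | A ≤ z ∧ z ≤ B}) ≤
      Submodule.span K (((Finset.Icc (B + 1) (B + ρ)).image n : Finset V) : Set V) := by
    rw [Submodule.span_le]
    rintro _ ⟨z, hz, rfl⟩
    have h2 := mem_span_of_recursion n A B ρ h (B - z).toNat z hz.1 hz.2 le_rfl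
    refine Submodule.span_mono ?_ h2
    rintro _ ⟨z', hz', rfl⟩
    simp only [Set.mem_ofPred_eq] at hz'
    exact Finset.mem_coe.2 (Finset.mem_image_of_mem _ (Finset.mem_Icc.2 ⟨by omega, by omega⟩))
  have h3 := Submodule.finrank_mono h1
  have h4 := finrank_span_finset_le_card (R := K) ((Finset.Icc (B + 1) (B + ρ)).image n)
  have h5 : ((Finset.Icc (B + 1) (B + (ρ : ℤ))).image n).card ≤ ρ := by
    refine Finset.card_image_le.trans ?_
    rw [Int.card_Icc]
    omega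
  exact h3.trans (h4.trans h5)

/-! ### Ranks -/

/-- extension by zero of a row -/
noncomputable def ext1 {Ω : Type*} [Field Ω] (Y : Finset ℚ) : (VV Y → Ω) →ₗ[Ω] (Vx → Ω) where
  toFun v y := if h : y ∈ VV Y then v ⟨y, h⟩ else 0
  map_add' v w := by
    funext y
    simp only [Pi.add_apply]
    split_ifs <;> simp
  map_smul' c v := by
    funext y
    simp only [Pi.smul_apply, RingHom.id_apply, smul_eq_mul]
    split_ifs <;> simp

theorem ext1_injective {Ω : Type*} [Field Ω] (Y : Finset ℚ) :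
    Function.Injective (ext1 Y : (VV Y → Ω) →ₗ[Ω] (Vx → Ω)) := by
  intro v w h
  funext i
  have h1 := congrFun h i.1
  change (if h : i.1 ∈ VV Y then v ⟨i.1, h⟩ else 0) =
    (if h : i.1 ∈ VV Y then w ⟨i.1, h⟩ else 0) at h1
  rw [dif_pos i.2, dif_pos i.2] at h1
  exact h1

theorem rk_eq_res {Ω : Type*} [Field Ω] (M : Vx → Vx → Ω) (B Y : Finset ℚ) :
    rk M (VV B) (VV Y) =
      finrank Ω (Submodule.span Ω ((fun x : Vx => res Y (M x)) '' {x | x.1 ∈ B})) := by
  have h1 : (rowSpan M (VV B) (VV Y)).map (ext1 Y) =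
      Submodule.span Ω ((fun x : Vx => res Y (M x)) '' {x | x.1 ∈ B}) := by
    unfold rowSpan
    rw [Submodule.map_span]
    congr 1
    rw [← Set.image_comp]
    have h2 : ∀ x : Vx, (ext1 Y ∘ rowOn M (VV Y)) x = res Y (M x) := by
      intro x
      funext y
      change (if h : y ∈ VV Y then M x y else 0) = if y.1 ∈ Y then M x y else 0
      by_cases hy : y.1 ∈ Y
      · rw [dif_pos (mem_VV.2 hy), if_pos hy]
      · rw [dif_neg (fun h => hy (mem_VV.1 h)), if_neg hy]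
    ext v
    constructor
    · rintro ⟨x, hx, rfl⟩
      exact ⟨x, mem_VV.1 hx, (h2 x).symm⟩
    · rintro ⟨x, hx, rfl⟩
      exact ⟨x, mem_VV.2 hx, h2 x⟩
  rw [← h1]
  unfold rk
  exact (LinearEquiv.finrank_eq (Submodule.equivMapOfInjective _ (ext1_injective Y) _))

/-- many left elements see every right element -/
theorem le_finrank_rows (W : World) (hR : ∀ C, ∃ n v, C < W.R n v) {T B Y : Finset ℚ}
    (hB : B ⊆ T) (hY : Y ⊆ T) (h : ∀ x ∈ B, ∀ y ∈ Y, x < y) (hc : 2 * Y.card ≤ B.card) :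
    Y.card ≤ finrank W.Ω (Submodule.span W.Ω
      ((fun x : Vx => res Y (W.P T x)) '' {x | x.1 ∈ B})) := by
  rw [← rk_eq_res]
  have h1 : rk (W.P T) (VV B) (VV Y) = W.R Y.card B.card := W.rk_eq hB hY h
  rw [h1, W.rankFun.eq_inf _ _ hc]
  refine W.rankFun.conc_inf.le_of_unbounded (fun C => ?_) _
  obtain ⟨n, v, hnv⟩ := hR C
  exact ⟨n, hnv.trans_le (W.rankFun.le_inf n v)⟩

end Pool.Agent.MP_0c183c.P9
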