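import Pool.Agent.Lib.MP_0c183c_p9.Grid7b

/-!
# Section 7b: under `TwoRank`, if the blocks `a b` (`a < b` neighbours) of the far arrays carry the
tangent vectors `λ_a ⊗ n_b` and the tangent spaces grow linearly, then the pairing `a_T(q)` vanishes
-/

set_option autoImplicit false

namespace Pool.Agent.MP_0c183c.P9

open Module MvPolynomial Pool.Agent.Lib.MP_0c183c_co_P9W Pool.Agent.Lib.MP_0c183c_co_P9S7
  Pool.Agent.Lib.MP_0c183c_co_P9F Pool.Agent.Lib.P9RankMat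
open Pool.Agent.Lib.MP_0c183c_co_P9T (Tan mem_Tan Tan_comp Sp absb fam off allp Pr ents rowv)

/-- The tangent vectors at the base point. -/
def HK (W : World) (ρ N : ℕ) : Prop :=
  ∀ (S T Xa Xb J : Finset ℚ) (a b : ℚ) (ka kb : Vx → W.Ω), Far W T S → a ∈ S → b ∈ S → a < b →
    (∀ z ∈ S, ¬ (a < z ∧ z < b)) → Xa ⊆ S → Xb ⊆ S → J ⊆ S → Xa.card = ρ + 1 →
    Xb.card = ρ + 1 → Around N Xa J → Around N Xb J → a ∈ Xa → (∀ x ∈ Xa, x ≤ a) → b ∈ Xb →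
    (∀ x ∈ Xb, b ≤ x) → ka ∈ Rel W T Xa J → ka ≠ 0 → kb ∈ Rel W T Xb J → kb ≠ 0 →
    fam (off (S.erase b)) (rowv (W.P T) b a (fun q => ka (a, !q.1) * kb (b, !q.2))) ∈
      Tan (ZMod 2) (fam (off (S.erase b)) (W.P T))

/-- The tangent vectors after the absorption of `b`. -/
def HKt (W : World) (ρ N : ℕ) : Prop :=
  ∀ (S T Xa Xb J : Finset ℚ) (a b : ℚ) (ka kb : Vx → W.Ω), Far W T S →
    Far W (T.erase b) (S.erase b) → a ∈ S → b ∈ S → a < b →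
    (∀ z ∈ S, ¬ (a < z ∧ z < b)) → Xa ⊆ S → Xb ⊆ S → J ⊆ S → Xa.card = ρ + 1 →
    Xb.card = ρ + 1 → Around N Xa J → Around N Xb J → a ∈ Xa → (∀ x ∈ Xa, x ≤ a) → b ∈ Xb →
    (∀ x ∈ Xb, b ≤ x) → ka ∈ Rel W T Xa J → ka ≠ 0 → kb ∈ Rel W T Xb J → kb ≠ 0 →
    fam (off (S.erase b)) (rowv (W.P T) b a (fun q => ka (a, !q.1) * kb (b, !q.2))) ∈
      Tan (ZMod 2) (fam (off (S.erase b)) (W.P (T.erase b)))

/-- the shift of the block `{0, .., ρ}` -/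
noncomputable def shf (ρ : ℕ) (z : ℤ) : ℚ → ℚ := by
  classical
  exact fun q => if q ∈ ZI 0 ρ then q + z else q

theorem shf_block (ρ : ℕ) (z : ℤ) {q : ℚ} (hq : q ∈ ZI 0 ρ) : shf ρ z q = q + z := by
  simp only [shf]
  rw [if_pos hq]

theorem shf_out (ρ : ℕ) (z : ℤ) {q : ℚ} (hq : q ∉ ZI 0 ρ) : shf ρ z q = q := by
  simp only [shf]
  rw [if_neg hq]

theorem KK_notMem {ρ N : ℕ} {M : ℤ} (hM : (ρ : ℤ) ≤ M) {q : ℚ} (hq : q ∈ KK ρ N M) :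
    q ∉ ZI 0 ρ := by
  intro h
  obtain ⟨z, hz, rfl⟩ := mem_KK.1 hq
  have := cast_mem_ZI.1 h
  omega

theorem strictMonoOn_shf {ρ N : ℕ} {M z : ℤ} (hz : 1 ≤ z) (hM : z + ρ ≤ M) :
    StrictMonoOn (shf ρ z) ((ZI 0 ρ ∪ KK ρ N M : Finset ℚ) : Set ℚ) := by
  intro x hx y hy hxy
  rw [Finset.mem_coe, Finset.mem_union] at hx hy
  rcases hx with hx | hx <;> rcases hy with hy | hy
  · rw [shf_block ρ z hx, shf_block ρ z hy]
    linarith
  · rw [shf_block ρ z hx, shf_out ρ z (KK_notMem (by omega) hy)]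
    obtain ⟨i, hi, rfl⟩ := mem_ZI.1 hx
    obtain ⟨j, hj, rfl⟩ := mem_KK.1 hy
    have h1 : i < j := by exact_mod_cast hxy
    have h2 : i + z < j := by omega
    exact_mod_cast h2
  · rw [shf_block ρ z hy, shf_out ρ z (KK_notMem (by omega) hx)]
    obtain ⟨i, hi, rfl⟩ := mem_ZI.1 hy
    obtain ⟨j, hj, rfl⟩ := mem_KK.1 hx
    have h1 : j < i := by exact_mod_cast hxy
    have h2 : j < i + z := by omega
    exact_mod_cast h2
  · rw [shf_out ρ z (KK_notMem (by omega) hx), shf_out ρ z (KK_notMem (by omega) hy)]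
    exact hxy

theorem image_shf_block (ρ : ℕ) (z : ℤ) : (ZI 0 ρ).image (shf ρ z) = ZI z (z + ρ) := by
  ext q
  rw [Finset.mem_image]
  constructor
  · rintro ⟨x, hx, rfl⟩
    rw [shf_block ρ z hx]
    obtain ⟨i, hi, rfl⟩ := mem_ZI.1 hx
    have : ((i : ℚ) + z) = ((i + z : ℤ) : ℚ) := by push_cast; ring
    rw [this, cast_mem_ZI]
    omega
  · intro hq
    obtain ⟨i, hi, rfl⟩ := mem_ZI.1 hq
    refine ⟨((i - z : ℤ) : ℚ), cast_mem_ZI.2 (by omega), ?_⟩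
    rw [shf_block ρ z (cast_mem_ZI.2 (by omega))]
    push_cast
    ring

theorem image_shf_KK {ρ N : ℕ} {M z : ℤ} (hM : (ρ : ℤ) ≤ M) :
    (KK ρ N M).image (shf ρ z) = KK ρ N M := by
  ext q
  rw [Finset.mem_image]
  constructor
  · rintro ⟨x, hx, rfl⟩
    rwa [shf_out ρ z (KK_notMem hM hx)]
  · intro hq
    exact ⟨q, hq, shf_out ρ z (KK_notMem hM hq)⟩

variable {W : World} {ρ N : ℕ}

/-- the minimal relations on integer blocks -/
theorem exists_rel_block (H : TwoRank W ρ N) {T : Finset ℚ} {M : ℤ}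
    (hT : ZI (-ρ - N) (M + N) ⊆ T) (z : ℤ) (hz : -(ρ : ℤ) ≤ z) (hzM : z + ρ ≤ M) :
    ∃ κ ∈ Rel W T (ZI z (z + ρ)) (KK ρ N M), κ ≠ 0 ∧ ∀ x, κ x ∈ AT W T := by
  refine exists_int_Rel H ?_ ?_ ?_ (around_ZI hz hzM (by omega))
  · exact (ZI_mono (by omega) (by omega)).trans hT
  · refine subset_trans ?_ hT
    intro q hq
    obtain ⟨w, hw, rfl⟩ := mem_KK.1 hq
    exact cast_mem_ZI.2 (by omega)
  · rw [card_ZI]
    omega

/-- the pairing is nonzero on every integer block if it does not vanish eventually -/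
theorem offq_block (H : TwoRank W ρ N) {T : Finset ℚ} {M : ℤ}
    (hT : Far W T (ZI (-ρ - N) (M + N)))
    (hneg : ∀ (T0 Z0 J0 : Finset ℚ) (q0 : ℚ), Z0 ⊆ T0 → J0 ⊆ T0 → Z0.card = ρ + 1 → q0 ∈ Z0 →
      Around N Z0 J0 → ∃ T, T0 ⊆ T ∧ ∃ κ ∈ Rel W T Z0 J0, offq W T Z0 κ q0 ≠ 0)
    (z : ℤ) (hz : 1 ≤ z) (hzM : z + ρ ≤ M) (κ : Vx → W.Ω)
    (hκ : κ ∈ Rel W T (ZI z (z + ρ)) (KK ρ N M)) (hκ0 : κ ≠ 0) :
    offq W T (ZI z (z + ρ)) κ (z : ℚ) ≠ 0 := by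
  obtain ⟨T0, -, hT0⟩ := exists_far W (ZI 0 ρ ∪ KK ρ N M) _ subset_rfl
  have h0 : ((0 : ℤ) : ℚ) ∈ ZI 0 ρ := cast_mem_ZI.2 (by omega)
  obtain ⟨T1, hT1, κ0, hκ01, hκ02⟩ := hneg T0 (ZI 0 ρ) (KK ρ N M) ((0 : ℤ) : ℚ)
    (Finset.subset_union_left.trans hT0.1) (Finset.subset_union_right.trans hT0.1)
    (by rw [card_ZI]; omega) h0 (around_ZI (by omega) (by omega) (by omega))
  have hmono := strictMonoOn_shf (N := N) hz hzM
  have him : (ZI 0 ρ ∪ KK ρ N M).image (shf ρ z) = ZI z (z + ρ) ∪ KK ρ N M := by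
    rw [Finset.image_union, image_shf_block, image_shf_KK (by omega)]
  have hZ : ZI z (z + ρ) ⊆ ZI (-(ρ : ℤ) - N) (M + N) := ZI_mono (by omega) (by omega)
  have hKS : KK ρ N M ⊆ ZI (-(ρ : ℤ) - N) (M + N) := by
    intro q hq
    obtain ⟨w, hw, rfl⟩ := mem_KK.1 hq
    exact cast_mem_ZI.2 (by omega)
  have hfar : Far W T ((ZI 0 ρ ∪ KK ρ N M).image (shf ρ z)) := by
    rw [him]
    exact hT.anti (Finset.union_subset hZ hKS)
  obtain ⟨κ', h1, h2⟩ := transport hmono (fun x hx hx' => KK_notMem (by omega) hx' hx)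
    (hT0.mono hT1) hfar h0 hκ01 hκ02
  rw [image_shf_block, image_shf_KK (by omega)] at h1
  have h3 : shf ρ z ((0 : ℤ) : ℚ) = z := by
    rw [shf_block ρ z h0]
    push_cast
    ring
  rw [image_shf_block, h3] at h2
  obtain ⟨c, hc⟩ := Rel_unique H (hZ.trans hT.1) (hKS.trans hT.1) (by rw [card_ZI]; omega)
    (around_ZI (by omega) hzM (by omega)) h1 hκ hκ0
  rw [hc, offq_smul] at h2
  exact fun h => h2 (by rw [h, mul_zero])

end Pool.Agent.MP_0c183c.P9
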