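import Pool.Agent.Lib.MP_0c183c_p9.Tools7b

/-!
# Section 7b, one step: from a relation with nonzero off-diagonal pairing to `λ_a ⊗ m_b` tangent
-/

set_option autoImplicit false

namespace Pool.Agent.MP_0c183c.P9

open Module MvPolynomial Pool.Agent.Lib.MP_0c183c_co_P9W Pool.Agent.Lib.MP_0c183c_co_P9S7
  Pool.Agent.Lib.MP_0c183c_co_P9F
open Pool.Agent.Lib.MP_0c183c_co_P9T (Tan mem_Tan Tan_comp Sp absb fam off allp Pr ents)

variable {W : World}

/-- the off-diagonal pairing (literally `OffQ` of helper62) -/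
def offq (W : World) (T X : Finset ℚ) (κ : Vx → W.Ω) (q : ℚ) : W.Ω :=
  ∑ a : Bool, (∑ x ∈ VV (X.erase q), κ x * W.P T x (q, a)) * κ (q, a)

theorem sum_VV (X : Finset ℚ) {R : Type*} [AddCommMonoid R] (f : Vx → R) :
    ∑ x ∈ VV X, f x = ∑ x ∈ X, (f (x, false) + f (x, true)) := by
  rw [VV, Finset.sum_product]
  refine Finset.sum_congr rfl fun x _ => ?_
  rw [Fintype.sum_bool, add_comm]

theorem sum_VV_nrow (W : World) (T X : Finset ℚ) (κ : Vx → W.Ω) (y : Vx) :
    ∑ x ∈ VV X, κ x * W.P T x y = ∑ x ∈ X, nrow (W.P T) x (fun s => κ (x, s)) y := by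
  rw [sum_VV]
  rfl

/-! ### Transport of relations -/

theorem VV_image (Z : Finset ℚ) (f : ℚ → ℚ) :
    VV (Z.image f) = (VV Z).image fun x => (f x.1, x.2) := by
  ext ⟨q, s⟩
  simp only [mem_VV, Finset.mem_image, Prod.mk.injEq, Prod.exists]
  constructor
  · rintro ⟨a, ha, rfl⟩
    exact ⟨a, s, ha, rfl, rfl⟩
  · rintro ⟨a, s', ha, rfl, rfl⟩
    exact ⟨a, ha, rfl⟩

theorem transport {T T' Z J : Finset ℚ} {f : ℚ → ℚ}
    (hf : StrictMonoOn f ((Z ∪ J : Finset ℚ) : Set ℚ)) (hZJ : ∀ z ∈ Z, z ∉ J)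
    (h : Far W T (Z ∪ J)) (h' : Far W T' ((Z ∪ J).image f)) {q : ℚ} (hq : q ∈ Z)
    {κ : Vx → W.Ω} (hκ : κ ∈ Rel W T Z J) (h0 : offq W T Z κ q ≠ 0) :
    ∃ κ' ∈ Rel W T' (Z.image f) (J.image f), offq W T' (Z.image f) κ' (f q) ≠ 0 := by
  classical
  obtain ⟨σ, hσ⟩ := h.conj_map hf h'
  have hinj : Set.InjOn f (Z ∪ J : Finset ℚ) := hf.injOn
  have hZ : ∀ {z}, z ∈ Z → z ∈ (Z ∪ J : Finset ℚ) := fun hz => Finset.mem_union_left _ hz
  have hJ : ∀ {z}, z ∈ J → z ∈ (Z ∪ J : Finset ℚ) := fun hz => Finset.mem_union_right _ hz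
  let g : ℚ → ℚ := Function.invFunOn f (Z : Set ℚ)
  have hg : ∀ z ∈ Z, g (f z) = z := by
    intro z hz
    have h1 : ∃ a ∈ (Z : Set ℚ), f a = f z := ⟨z, hz, rfl⟩
    have h2 := Function.invFunOn_mem h1
    have h3 := Function.invFunOn_eq h1
    exact hinj (Finset.mem_coe.2 (hZ (Finset.mem_coe.1 h2))) (Finset.mem_coe.2 (hZ hz)) h3
  let κ' : Vx → W.Ω := fun z => if z.1 ∈ Z.image f then σ (κ (g z.1, z.2)) else 0
  have hκ' : ∀ x : Vx, x.1 ∈ Z → κ' (f x.1, x.2) = σ (κ x) := by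
    intro x hx
    simp only [κ']
    rw [if_pos (Finset.mem_image_of_mem f hx), hg x.1 hx]
  have hsum : ∀ (Y : Finset ℚ), Y ⊆ Z → ∀ y : Vx, y.1 ∈ Z ∪ J → y.1 ∉ Y →
      ∑ x ∈ VV (Y.image f), κ' x * W.P T' x (f y.1, y.2) =
        σ (∑ x ∈ VV Y, κ x * W.P T x y) := by
    intro Y hY y hy hyY
    rw [VV_image, Finset.sum_image, map_sum]
    · refine Finset.sum_congr rfl fun x hx => ?_
      have hxY : x.1 ∈ Y := mem_VV.1 hx
      rw [map_mul, hκ' x (hY hxY), hσ x y (hZ (hY hxY)) hy (fun h => hyY (h ▸ hxY))]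
    · intro x hx x' hx' hxx
      have e1 : f x.1 = f x'.1 := congrArg Prod.fst hxx
      have e2 := congrArg Prod.snd hxx
      change x.2 = x'.2 at e2
      exact Prod.ext (hinj (Finset.mem_coe.2 (hZ (hY (mem_VV.1 hx))))
        (Finset.mem_coe.2 (hZ (hY (mem_VV.1 hx')))) e1) e2
  refine ⟨κ', ⟨?_, ?_⟩, ?_⟩
  · intro x hx
    have h1 : x.1 ∉ Z.image f := fun h => hx (mem_VV.2 h)
    simp only [κ', if_neg h1]
  · intro y hy
    rw [VV_image, Finset.mem_image] at hy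
    obtain ⟨y, hy, rfl⟩ := hy
    have hyJ : y.1 ∈ J := mem_VV.1 hy
    change ∑ x ∈ VV (Z.image f), κ' x * W.P T' x (f y.1, y.2) = 0
    rw [hsum Z subset_rfl y (hJ hyJ) (fun hyZ => hZJ _ hyZ hyJ), hκ.2 y hy, map_zero]
  · have h1 : (Z.image f).erase (f q) = (Z.erase q).image f := by
      ext z
      simp only [Finset.mem_erase, Finset.mem_image]
      constructor
      · rintro ⟨hz, w, hw, rfl⟩
        exact ⟨w, ⟨fun h => hz (h ▸ rfl), hw⟩, rfl⟩
      · rintro ⟨w, ⟨hwq, hw⟩, rfl⟩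
        exact ⟨fun h => hwq (hinj (Finset.mem_coe.2 (hZ hw)) (Finset.mem_coe.2 (hZ hq)) h), w, hw,
          rfl⟩
    have h2 : offq W T' (Z.image f) κ' (f q) = σ (offq W T Z κ q) := by
      simp only [offq]
      rw [h1, map_sum]
      refine Finset.sum_congr rfl fun a _ => ?_
      rw [map_mul]
      have h3 := hsum (Z.erase q) (Finset.erase_subset _ _) (q, a) (hZ hq)
        (Finset.notMem_erase q Z)
      have h4 := hκ' (q, a) hq
      simp only at h3 h4
      rw [h3, h4]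
    rw [h2]
    exact fun h => h0 ((map_eq_zero σ).1 h)

/-- the pairing of a multiple -/
theorem offq_smul (T X : Finset ℚ) (κ : Vx → W.Ω) (q : ℚ) (c : W.Ω) :
    offq W T X (c • κ) q = c ^ 2 * offq W T X κ q := by
  simp only [offq, Finset.mul_sum, Pi.smul_apply, smul_eq_mul, Finset.sum_mul]
  refine Finset.sum_congr rfl fun a _ => Finset.sum_congr rfl fun x _ => ?_
  ring

/-! ### One step -/

theorem charTwo (W : World) : CharP W.Ω 2 := charP_of_injective_algebraMap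
  (algebraMap (ZMod 2) W.Ω).injective 2

/-- the arrays of `T - b` and the absorption of `b` -/
theorem fam_erase {T I : Finset ℚ} {b : ℚ} {t : W.Ω}
    (ht : ∀ x y : Vx, x.1 ∈ T.erase b → y.1 ∈ T.erase b →
      W.P (T.erase b) x y = absorb (W.P T) b t x y) (hI : I ⊆ T.erase b) :
    fam (off I) (W.P (T.erase b)) = fam (off I) (absb (W.P T) b t) := by
  funext i
  exact ht i.1.1 i.1.2 (hI i.2.1) (hI i.2.2.1)

theorem step7b (T I Xb : Finset ℚ) (a b : ℚ) (hbT : b ∈ T)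
    (hbX : b ∈ Xb) (hXb : Xb ⊆ T) (hF : Far W T I) (hF' : Far W (T.erase b) I)
    (lam : Bool → W.Ω) (hlam : ∀ s, lam s ∈ AT W T) (κ : Vx → W.Ω)
    (hrel : ∀ y : Vx, y.1 ∈ I → ∑ x ∈ VV Xb, κ x * W.P T x y = 0)
    (hoff : offq W T Xb κ b ≠ 0) (u : Bool → W.Ω) (d : W.Ω) (hd : d ≠ 0)
    (hdu : ∀ s, d * u s ∈ AT W T)
    (hu : κ (b, false) * u true + κ (b, true) * u false = 1)
    (h1 : ∀ x ∈ Xb.erase b, fam (off I) (rvec a lam (nrow (W.P (T.erase b)) x
      (fun s => κ (x, s)))) ∈ Tan (ZMod 2) (fam (off I) (W.P (T.erase b))))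
    (h2 : fam (off I) (rvec a lam (nrow (W.P T) b (fun s => κ (b, s)))) ∈
      Tan (ZMod 2) (fam (off I) (W.P (T.erase b)))) :
    fam (off I) (rvec a lam (nrow (W.P T) b u)) ∈ Tan (ZMod 2) (fam (off I) (W.P T)) := by
  have := charTwo W
  obtain ⟨t, ht, hte⟩ := W.abs T b hbT
  have hIe : I ⊆ T.erase b := hF'.1
  have hfam := fam_erase hte hIe
  rw [hfam] at h1 h2
  have ht0 : t ≠ 0 := by
    rintro rfl
    exact ht (isAlgebraic_zero)
  have h3 := rvec_mem_Tan_absb (k := ZMod 2) (W.P T) I a b lam t ht0 (Xb.erase b)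
    (fun x s => κ (x, s)) u hu ?_ ?_ h2 ?_
  · refine tan_zero (W.P T) T b hbT (off I) (fun p hp => ⟨hF.1 hp.1, hF.1 hp.2.1⟩) t ht ?_ _ d hd ?_ h3
    · rw [← hfam]
      exact hF.sp hF'
    · rintro ⟨⟨x, y⟩, hx, hy, hxy⟩
      change d * rvec a lam (nrow (W.P T) b u) x y ∈ AT W T
      have hn : ∀ z : Vx, z.1 ∈ T → d * nrow (W.P T) b u z ∈ AT W T := by
        intro z hz
        have : d * nrow (W.P T) b u z = (d * u false) * W.P T (b, false) z +
            (d * u true) * W.P T (b, true) z := by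
          simp only [nrow]; ring
        rw [this]
        exact (AT W T).add_mem ((AT W T).mul_mem (hdu _) (mem_AT hbT hz))
          ((AT W T).mul_mem (hdu _) (mem_AT hbT hz))
      simp only [rvec]
      split_ifs
      · rw [mul_zero]; exact (AT W T).zero_mem
      · rw [mul_left_comm]
        exact (AT W T).mul_mem (hlam _) (hn _ (hF.1 hy))
      · rw [mul_left_comm]
        exact (AT W T).mul_mem (hlam _) (hn _ (hF.1 hx))
      · rw [mul_zero]; exact (AT W T).zero_mem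
  · intro y hy hya
    have h4 := hrel y hy
    rw [sum_VV_nrow, ← Finset.sum_erase_add _ _ hbX] at h4
    exact h4
  · intro x hx
    have h4 := h1 x hx
    have h5 : rvecL (off I) a lam (nrow (W.P (T.erase b)) x (fun s => κ (x, s))) =
        rvecL (off I) a lam (nrow (absb (W.P T) b t) x (fun s => κ (x, s))) := by
      refine rvecL_congr I a lam _ _ fun y hy _ => ?_
      have hxT : x ∈ T.erase b := by
        rw [Finset.mem_erase] at hx ⊢
        exact ⟨hx.1, hXb hx.2⟩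
      simp only [nrow]
      rw [hte (x, false) y hxT (hIe hy), hte (x, true) y hxT (hIe hy)]
      rfl
    rw [rvecL_apply, rvecL_apply] at h5
    rwa [h5] at h4
  · have h4 : offq W T Xb κ b = κ (b, false) *
        (∑ x ∈ Xb.erase b, nrow (W.P T) x (fun s => κ (x, s)) (b, false)) +
        κ (b, true) * (∑ x ∈ Xb.erase b, nrow (W.P T) x (fun s => κ (x, s)) (b, true)) := by
      simp only [offq]
      rw [Fintype.sum_bool, sum_VV_nrow, sum_VV_nrow]
      ring
    rw [h4] at hoff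
    exact hoff

end Pool.Agent.MP_0c183c.P9
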