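import Pool.Agent.Lib.MP_0c183c_co_P9T.Row

/-!
# Section 7b, `t → 0`: a vector with entries rational over `F_2(P T)` which is tangent after the
absorption at the generic parameter `t` is tangent at `t = 0`.
-/

set_option autoImplicit false

namespace Pool.Agent.MP_0c183c.P9

open MvPolynomial Pool.Agent.Lib.MP_0c183c_co_P9T

/-- naturality of the directional derivative -/
theorem dd_ringHom {k R S : Type*} [CommRing k] [CommRing R] [CommRing S] [Algebra k R]
    [Algebra k S] (φ : R →ₐ[k] S) {s : Type*} (x v : s → R) (p : MvPolynomial s k) :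
    dd k (fun i => φ (x i)) (fun i => φ (v i)) p = φ (dd k x v p) := by
  induction p using MvPolynomial.induction_on with
  | C a => simp [dd, TrivSqZeroExt.algebraMap_eq_inl']
  | add p q hp hq =>
    simp only [dd, map_add, TrivSqZeroExt.snd_add] at hp hq ⊢
    rw [hp, hq]
  | mul_X p i hp =>
    have h1 : aeval (fun i => φ (x i)) p = φ (aeval x p) := by
      rw [← AlgHom.comp_apply, MvPolynomial.comp_aeval]
    simp only [dd, map_mul, aeval_X, TrivSqZeroExt.snd_mul, fst_aeval_dual] at hp ⊢
    rw [hp, h1]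
    simp only [dual, TrivSqZeroExt.snd_add, TrivSqZeroExt.snd_inl, TrivSqZeroExt.snd_inr,
      TrivSqZeroExt.fst_add, TrivSqZeroExt.fst_inl, TrivSqZeroExt.fst_inr, zero_add, add_zero,
      smul_eq_mul, MulOpposite.smul_eq_mul_unop, MulOpposite.unop_op, map_add, map_mul]

variable {ι : Type*} {k Ω : Type*} [CommRing k] [Field Ω] [Algebra k Ω]

/-- The case of entries in the ring generated by the entries of `M`. -/
theorem tan_zero_of_mem (M : ι × Bool → ι × Bool → Ω) (T : Finset ι) (b : ι) (hb : b ∈ T)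
    (B : Set (Pr ι)) (hB : B ⊆ allp T) (t : Ω)
    (ht : Transcendental (Algebra.adjoin k (ents T M)) t)
    (hsp : Sp k (fam B M) (fam B (absb M b t))) (v : B → Ω)
    (hv : ∀ i, v i ∈ Algebra.adjoin k (ents T M))
    (h : v ∈ Tan k (fam B (absb M b t))) : v ∈ Tan k (fam B M) := by
  rw [mem_Tan] at h ⊢
  intro p hp
  set A := Algebra.adjoin k (ents T M) with hA
  have hmem : ∀ x y : ι × Bool, x.1 ∈ T → y.1 ∈ T → M x y ∈ A := fun x y hx hy =>
    Algebra.subset_adjoin ⟨x, y, hx, hy, rfl⟩
  -- the array and the vector with values in `A[X]`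
  let e : B → Polynomial A := fun i =>
    Polynomial.C (⟨M i.1.1 i.1.2, hmem _ _ (hB i.2).1 (hB i.2).2⟩ : A) + Polynomial.X *
      (Polynomial.C (⟨M i.1.1 (b, false), hmem _ _ (hB i.2).1 hb⟩ : A) *
        Polynomial.C (⟨M (b, true) i.1.2, hmem _ _ hb (hB i.2).2⟩ : A) +
      Polynomial.C (⟨M i.1.1 (b, true), hmem _ _ (hB i.2).1 hb⟩ : A) *
        Polynomial.C (⟨M (b, false) i.1.2, hmem _ _ hb (hB i.2).2⟩ : A))
  let v' : B → Polynomial A := fun i => Polynomial.C (⟨v i, hv i⟩ : A)
  let Q : Polynomial A := dd k e v' p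
  have key : ∀ t' : Ω, (Polynomial.aeval t' : Polynomial A →ₐ[A] Ω) Q =
      dd k (fam B (absb M b t')) v p := by
    intro t'
    have h1 := dd_ringHom ((Polynomial.aeval t' : Polynomial A →ₐ[A] Ω).restrictScalars k) e v' p
    have h2 : (fun i => ((Polynomial.aeval t' : Polynomial A →ₐ[A] Ω).restrictScalars k) (e i)) =
        fam B (absb M b t') := by
      funext i
      simp only [e, AlgHom.restrictScalars_apply, map_add, map_mul, Polynomial.aeval_C,
        Polynomial.aeval_X, fam, absb]
      rfl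
    have h3 : (fun i => ((Polynomial.aeval t' : Polynomial A →ₐ[A] Ω).restrictScalars k) (v' i)) =
        v := by
      funext i
      simp only [v', AlgHom.restrictScalars_apply, Polynomial.aeval_C]
      rfl
    rw [h2, h3] at h1
    exact h1.symm
  have hQ : Q = 0 := by
    by_contra hne
    refine ht ⟨Q, hne, ?_⟩
    rw [key]
    exact h p (hsp p hp)
  have h0 := key 0
  rw [hQ, map_zero, absb_zero] at h0
  exact h0.symm

/-- The case of entries in the fraction field: `d • v` has entries in the ring. -/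
theorem tan_zero (M : ι × Bool → ι × Bool → Ω) (T : Finset ι) (b : ι) (hb : b ∈ T)
    (B : Set (Pr ι)) (hB : B ⊆ allp T) (t : Ω)
    (ht : Transcendental (Algebra.adjoin k (ents T M)) t)
    (hsp : Sp k (fam B M) (fam B (absb M b t))) (v : B → Ω) (d : Ω) (hd : d ≠ 0)
    (hv : ∀ i, d * v i ∈ Algebra.adjoin k (ents T M))
    (h : v ∈ Tan k (fam B (absb M b t))) : v ∈ Tan k (fam B M) := by
  have h1 := tan_zero_of_mem M T b hb B hB t ht hsp (d • v) hv (Submodule.smul_mem _ _ h)
  have h2 := Submodule.smul_mem (Tan k (fam B M)) d⁻¹ h1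
  rwa [smul_smul, inv_mul_cancel₀ hd, one_smul] at h2

end Pool.Agent.MP_0c183c.P9
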