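import Pool.Agent.Lib.MP_0c183c_p9.CountRow
import Pool.Agent.Lib.MP_0c183c_co_P9F.Far
import Pool.Agent.Lib.MP_0c183c_co_P9S7.Two

/-!
# Section 7b, tools at the level of a `World`
-/

set_option autoImplicit false

namespace Pool.Agent.MP_0c183c.P9

open Module MvPolynomial Pool.Agent.Lib.MP_0c183c_co_P9W Pool.Agent.Lib.MP_0c183c_co_P9S7
  Pool.Agent.Lib.MP_0c183c_co_P9F
open Pool.Agent.Lib.MP_0c183c_co_P9T (Tan mem_Tan Tan_comp Sp absb fam off allp Pr ents)

/-! ### Far worlds from which one element may be removed -/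

theorem exists_far_notMem (W : World) (I : Finset ℚ) (b : ℚ) (hb : b ∉ I) :
    ∃ T, Far W T I ∧ b ∉ T := by
  classical
  obtain ⟨T, h1, h2⟩ := exists_far W I I subset_rfl
  by_cases hbT : b ∈ T
  · -- a point `b' > b` below all the elements of `T` above `b`
    obtain ⟨b', hb1, hb2⟩ : ∃ b', b < b' ∧ ∀ z ∈ T, b < z → b' < z := by
      by_cases hne : (T.filter fun z => b < z).Nonempty
      · obtain ⟨b', h3, h4⟩ := exists_between
          (show b < (T.filter fun z => b < z).min' hne from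
            (Finset.mem_filter.1 (Finset.min'_mem _ hne)).2)
        exact ⟨b', h3, fun z hz hbz => h4.trans_le
          (Finset.min'_le _ z (Finset.mem_filter.2 ⟨hz, hbz⟩))⟩
      · refine ⟨b + 1, by linarith, fun z hz hbz => ?_⟩
        exact absurd ⟨z, Finset.mem_filter.2 ⟨hz, hbz⟩⟩ hne
    let f : ℚ → ℚ := fun z => if z = b then b' else z
    have hf : StrictMonoOn f (T : Set ℚ) := by
      intro x hx y hy hxy
      simp only [f]
      split_ifs with h3 h4 h4
      · subst h3 h4; exact absurd hxy (lt_irrefl _)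
      · subst h3; exact hb2 y hy hxy
      · subst h4; exact hxy.trans hb1
      · exact hxy
    refine ⟨T.image f, ?_, ?_⟩
    · have h3 := h2.image hf
      have h4 : I.image f = I := by
        ext z
        rw [Finset.mem_image]
        constructor
        · rintro ⟨w, hw, rfl⟩
          have : w ≠ b := fun h => hb (h ▸ hw)
          simp only [f, if_neg this]
          exact hw
        · intro hz
          have : z ≠ b := fun h => hb (h ▸ hz)
          exact ⟨z, hz, by simp only [f, if_neg this]⟩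
      rwa [h4] at h3
    · intro h3
      obtain ⟨z, hz, hzb⟩ := Finset.mem_image.1 h3
      simp only [f] at hzb
      split_ifs at hzb with h4
      · exact hb1.ne' hzb
      · exact h4 hzb
  · exact ⟨T, h2, hbT⟩

theorem exists_far_erase (W : World) (S : Finset ℚ) :
    ∃ T, Far W T S ∧ ∀ b ∈ S, Far W (T.erase b) (S.erase b) := by
  classical
  choose! F hF hF' using fun b => exists_far_notMem W (S.erase b) b (Finset.notMem_erase b S)
  obtain ⟨T, h1, h2⟩ := exists_far W S (S ∪ S.biUnion F) Finset.subset_union_left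
  refine ⟨T, h2, fun b hb => (hF b).mono fun z hz => ?_⟩
  rw [Finset.mem_erase]
  refine ⟨fun h => hF' b (h ▸ hz), h1 (Finset.mem_union_right _ ?_)⟩
  exact Finset.mem_biUnion.2 ⟨b, hb, hz⟩

/-! ### Integral relations -/

/-- A homogeneous linear system with coefficients in a subring which has a nonzero solution has a
nonzero solution in the subring. -/
theorem exists_int_solution {k Ω : Type*} [CommRing k] [Field Ω] [Algebra k Ω]
    (A : Subalgebra k Ω) {α β : Type*} [DecidableEq α] (s : Finset α) (B : Set β)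
    (M : α → β → Ω)
    (hM : ∀ x ∈ s, ∀ y ∈ B, M x y ∈ A) (v : α → Ω) (hs : ∀ x, x ∉ s → v x = 0) (hv : v ≠ 0)
    (h : ∀ y ∈ B, ∑ x ∈ s, v x * M x y = 0) :
    ∃ u : α → Ω, (∀ x, u x ∈ A) ∧ (∀ x, x ∉ s → u x = 0) ∧ u ≠ 0 ∧
      ∀ y ∈ B, ∑ x ∈ s, u x * M x y = 0 := by
  classical
  let K := FractionRing A
  have hinj : Function.Injective (algebraMap A Ω) := fun a b hab => Subtype.ext hab
  let _ : Algebra K Ω := (IsFractionRing.lift hinj : K →+* Ω).toAlgebra
  have htow : ∀ a : A, algebraMap K Ω (algebraMap A K a) = a.1 := fun a => by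
    change IsFractionRing.lift hinj (algebraMap A K a) = _
    rw [IsFractionRing.lift_algebraMap]
    rfl
  obtain ⟨x₀, hx₀⟩ := Function.ne_iff.mp hv
  obtain ⟨φ, hφ⟩ : ∃ φ : Module.Dual K Ω, φ (v x₀) ≠ 0 := by
    by_contra hc
    push Not at hc
    exact hx₀ ((Module.forall_dual_apply_eq_zero_iff K (v x₀)).1 hc)
  have hlin : ∀ (a : A) (z : Ω), φ (z * a.1) = φ z * algebraMap A K a := by
    intro a z
    have : z * a.1 = (algebraMap A K a) • z := by
      rw [Algebra.smul_def, htow, mul_comm]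
    rw [this, map_smul, smul_eq_mul, mul_comm]
  obtain ⟨d, hd⟩ := IsLocalization.exist_integer_multiples_of_finset (nonZeroDivisors A)
    (s.image fun x => φ (v x))
  choose! g hg using hd
  have hd0 : (d : A) ≠ 0 := nonZeroDivisors.coe_ne_zero d
  have hg' : ∀ x ∈ s, algebraMap A K (g (φ (v x))) = algebraMap A K d * φ (v x) := by
    intro x hx
    rw [hg _ (Finset.mem_image_of_mem _ hx), Algebra.smul_def]
  refine ⟨fun x => if x ∈ s then (g (φ (v x))).1 else 0, ?_, ?_, ?_, ?_⟩
  · intro x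
    by_cases hx : x ∈ s
    · simp only [if_pos hx]
      exact (g (φ (v x))).2
    · simp only [if_neg hx]
      exact A.zero_mem
  · intro x hx
    simp only [if_neg hx]
  · intro h0
    have hx₀s : x₀ ∈ s := by
      by_contra hn
      exact hx₀ (hs x₀ hn)
    have h1 := congrFun h0 x₀
    simp only [if_pos hx₀s, Pi.zero_apply] at h1
    have h2 : g (φ (v x₀)) = 0 := Subtype.ext h1
    have h3 := hg' x₀ hx₀s
    rw [h2, map_zero] at h3
    have h4 : algebraMap A K (d : A) ≠ 0 := by
      intro h5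
      exact hd0 ((IsFractionRing.injective A K) (by rw [h5, map_zero]))
    exact (mul_ne_zero h4 hφ) h3.symm
  · intro y hy
    have h1 : ∑ x ∈ s, algebraMap A K (g (φ (v x))) * (if hx : x ∈ s then
        algebraMap A K ⟨M x y, hM x hx y hy⟩ else 0) = 0 := by
      have h2 : ∀ x ∈ s, algebraMap A K (g (φ (v x))) * (if hx : x ∈ s then
          algebraMap A K ⟨M x y, hM x hx y hy⟩ else 0) = algebraMap A K d * φ (v x * M x y) := by
        intro x hx
        rw [dif_pos hx, hg' x hx, mul_assoc, hlin ⟨M x y, hM x hx y hy⟩]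
      rw [Finset.sum_congr rfl h2, ← Finset.mul_sum, ← map_sum, h y hy, map_zero, mul_zero]
    have h3 := congrArg (algebraMap K Ω) h1
    rw [map_zero, map_sum] at h3
    refine Eq.trans (Finset.sum_congr rfl fun x hx => ?_) h3
    simp only [if_pos hx, dif_pos hx]
    rw [map_mul, htow, htow]

/-- the subring generated by the entries of the array `P T` -/
abbrev AT (W : World) (T : Finset ℚ) : Subalgebra (ZMod 2) W.Ω :=
  Algebra.adjoin (ZMod 2) (entries T (W.P T))

theorem mem_AT {W : World} {T : Finset ℚ} {x y : Vx} (hx : x.1 ∈ T) (hy : y.1 ∈ T) :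
    W.P T x y ∈ AT W T := Algebra.subset_adjoin ⟨x, y, hx, hy, rfl⟩

/-- integral minimal relations -/
theorem exists_int_Rel {W : World} {ρ N : ℕ} (H : TwoRank W ρ N) {T X J : Finset ℚ} (hX : X ⊆ T)
    (hJ : J ⊆ T) (hc : X.card = ρ + 1) (ha : Around N X J) :
    ∃ κ ∈ Rel W T X J, κ ≠ 0 ∧ ∀ x, κ x ∈ AT W T := by
  obtain ⟨l, hl, hl0⟩ := exists_Rel H hX hJ hc ha
  obtain ⟨u, h1, h2, h3, h4⟩ := exists_int_solution (AT W T) (VV X) {y | y ∈ VV J} (W.P T)
    (fun x hx y hy => mem_AT (hX (mem_VV.1 hx)) (hJ (mem_VV.1 hy))) l hl.1 hl0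
    (fun y hy => hl.2 y hy)
  exact ⟨u, ⟨h2, fun y hy => h4 y hy⟩, h3, h1⟩

/-! ### Components -/

/-- components of minimal relations at a common element are proportional -/
theorem comp_smul {W : World} {ρ N : ℕ} (H : TwoRank W ρ N) {T X X' J : Finset ℚ} (hX : X ⊆ T)
    (hX' : X' ⊆ T) (hJ : J ⊆ T) (hc : X.card = ρ + 1) (hc' : X'.card = ρ + 1) (ha : Around N X J)
    (ha' : Around N X' J) {κ κ' : Vx → W.Ω} (hκ : κ ∈ Rel W T X J) (hκ0 : κ ≠ 0)
    (hκ' : κ' ∈ Rel W T X' J) (hκ'0 : κ' ≠ 0) {q : ℚ} (hq : q ∈ X) (hq' : q ∈ X') :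
    ∃ c : W.Ω, c ≠ 0 ∧ ∀ s, κ (q, s) = c * κ' (q, s) := by
  have hcard : (X ∪ X').card ≤ 4 * ρ + 8 := by
    have := Finset.card_union_le X X'
    omega
  have h1 := Rel_cross H hX hJ hX' hJ hcard ha ha' hq hκ hκ'
  have h2 := Rel_comp_ne H hX hJ hc ha hκ hκ0 hq
  have h3 := Rel_comp_ne H hX' hJ hc' ha' hκ' hκ'0 hq'
  by_cases h4 : κ' (q, false) = 0
  · have h5 : κ' (q, true) ≠ 0 := by tauto
    have h6 : κ (q, false) = 0 := by
      rw [h4, mul_zero] at h1
      exact (mul_eq_zero.1 h1).resolve_right h5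
    refine ⟨κ (q, true) / κ' (q, true), div_ne_zero (by tauto) h5, ?_⟩
    intro s
    cases s
    · rw [h6, h4, mul_zero]
    · rw [div_mul_cancel₀ _ h5]
  · refine ⟨κ (q, false) / κ' (q, false), div_ne_zero ?_ h4, ?_⟩
    · intro h5
      rw [h5, zero_mul] at h1
      have h6 : κ (q, true) = 0 := (mul_eq_zero.1 h1.symm).resolve_right h4
      tauto
    · intro s
      cases s
      · rw [div_mul_cancel₀ _ h4]
      · field_simp
        exact h1.symm

/-! ### Restriction of tangent vectors -/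

theorem Tan_restrict {ι Ω k : Type*} [CommRing k] [Field Ω] [Algebra k Ω] {I I' : Finset ι}
    (h : I ⊆ I') (M : ι × Bool → ι × Bool → Ω) (v : ι × Bool → ι × Bool → Ω)
    (hv : fam (off I') v ∈ Tan k (fam (off I') M)) : fam (off I) v ∈ Tan k (fam (off I) M) := by
  have hsub : off I ⊆ off I' := fun p hp => ⟨h hp.1, h hp.2.1, hp.2.2⟩
  exact Tan_comp k hv (fun i : off I => (⟨i.1, hsub i.2⟩ : off I'))

end Pool.Agent.MP_0c183c.P9
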